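import Pool.Agent.Lib.H61L.Final
import Pool.Agent.Lib.H61M.R3

/-!
# `(j + O(√(i j)))`-connected graphs are `(i, j)`-linked

The proof: `Pool/Agent/Lib/H61L` (see `Main.lean` there for an outline), on top of the theorem on
massed pairs in `Pool/Agent/Lib/H47G`, and `Pool/Agent/Lib/H61M` for more than two sets.
-/

open Classical

namespace Pool.Agent.Results.MP_dd17fe_co.AsymptoticThreshold

open H47G H61L H61M

/-- `G` is `r`-connected: it has more than `r` vertices, and it stays connected after deleting any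
set of fewer than `r` vertices. -/
def IsVertexConnected {V : Type} [Fintype V] (G : SimpleGraph V) (r : ℕ) : Prop :=
  r < Fintype.card V ∧ ∀ X : Finset V, X.card < r → (G.induce {v : V | v ∉ X}).Connected

/-- `G` is `(s₁, …, s_k)`-linked: it has at least `s₁ + ⋯ + s_k` vertices, and for all pairwise
disjoint vertex sets `S₁, …, S_k` with `|S_i| = s_i` there are pairwise vertex-disjoint connected
subgraphs `F₁, …, F_k` with `S_i ⊆ V(F_i)` for every `i`. -/
def IsLinked {V : Type} [Fintype V] (G : SimpleGraph V) {k : ℕ} (s : Fin k → ℕ) : Prop :=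
  ∑ i, s i ≤ Fintype.card V ∧
  ∀ S : Fin k → Finset V, (∀ i, (S i).card = s i) → (∀ i j, i ≠ j → Disjoint (S i) (S j)) →
    ∃ F : Fin k → G.Subgraph,
      (∀ i, (F i).Connected) ∧ (∀ i, (S i : Set V) ⊆ (F i).verts) ∧
      ∀ i j, i ≠ j → Disjoint (F i).verts (F j).verts

section

variable {V : Type} [Fintype V] {G : SimpleGraph V}

/-- A nonempty set which is connected in the cut sense induces a connected subgraph. -/
theorem connected_of_conn {F : Finset V} (h : Conn G F) (hn : F.Nonempty) :
    ((⊤ : G.Subgraph).induce (F : Set V)).Connected := by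
  rw [← SimpleGraph.connected_induce_iff]
  obtain ⟨x, hx⟩ := hn
  have key : ∀ y (hy : y ∈ F), (G.induce (F : Set V)).Reachable ⟨x, hx⟩ ⟨y, hy⟩ := by
    let A : Finset V := F.filter fun y ↦ ∃ hy : y ∈ F,
      (G.induce (F : Set V)).Reachable ⟨x, hx⟩ ⟨y, hy⟩
    have hA : A = F := by
      by_contra hne
      obtain ⟨a, ha, b, hb, hbA, hab⟩ := h A (Finset.filter_subset _ _)
        ⟨x, Finset.mem_filter.2 ⟨hx, hx, SimpleGraph.Reachable.refl _⟩⟩ hne
      obtain ⟨-, ha', hr⟩ := Finset.mem_filter.1 ha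
      refine hbA (Finset.mem_filter.2 ⟨hb, hb, hr.trans ?_⟩)
      exact SimpleGraph.Adj.reachable (by simpa using hab)
    intro y hy
    rw [← hA] at hy
    exact (Finset.mem_filter.1 hy).2.2
  refine (SimpleGraph.connected_iff_exists_forall_reachable _).2 ⟨⟨x, hx⟩, fun y ↦ ?_⟩
  exact key y.1 y.2

/-- `r`-connectedness in cut form. -/
theorem rconn_of {r : ℕ} (hG : IsVertexConnected G r) : RConn G r := by
  refine ⟨hG.1, fun Z U hZ hn hd hcl b hbZ ↦ ?_⟩
  by_contra hbU
  obtain ⟨a, ha⟩ := hn
  have haZ : a ∉ Z := Finset.disjoint_left.1 hd ha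
  obtain ⟨p⟩ := (hG.2 Z hZ).preconnected ⟨a, haZ⟩ ⟨b, hbZ⟩
  obtain ⟨d, -, d1, d2⟩ := p.exists_boundary_dart {x | (x : V) ∈ U} ha hbU
  exact hcl _ d1 _ d.snd.2 d2 (by simpa using d.adj)

end

/-- The first statement: two sizes and singletons. -/
private theorem two_sizes (k : ℕ) (s : Fin k → ℕ) (a b : Fin k) (C : ℕ) (hab : a ≠ b)
    (h1 : ∀ l, 1 ≤ s l) (hs : ∀ l, l ≠ a → l ≠ b → s l = 1) (hle : s a ≤ s b)
    (hC : 6 * √((s a : ℝ) * s b) ≤ C) (V : Type) [Fintype V] (G : SimpleGraph V)
    (hG : IsVertexConnected G (s b + C + (k - 2))) : IsLinked G s := by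
  have hC' : 36 * s a * s b ≤ C ^ 2 := by
    have h2 : (6 * √((s a : ℝ) * s b)) ^ 2 ≤ (C : ℝ) ^ 2 :=
      pow_le_pow_left₀ (by positivity) hC 2
    rw [mul_pow, Real.sq_sqrt (by positivity)] at h2
    have h3 : (36 : ℝ) * s a * s b ≤ (C : ℝ) ^ 2 := by linarith
    exact_mod_cast h3
  have hRG := rconn_of hG
  have hsum : ∑ l, s l = s a + s b + (k - 2) := by
    rw [← Finset.add_sum_erase _ s (Finset.mem_univ a),
      ← Finset.add_sum_erase _ s (Finset.mem_erase.2 ⟨hab.symm, Finset.mem_univ b⟩),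
      Finset.sum_congr rfl (g := fun _ ↦ 1) (fun l hl ↦ ?_)]
    · rw [Finset.sum_const, smul_eq_mul, mul_one, Finset.card_erase_of_mem
        (Finset.mem_erase.2 ⟨hab.symm, Finset.mem_univ b⟩),
        Finset.card_erase_of_mem (Finset.mem_univ a), Finset.card_univ, Fintype.card_fin]
      omega
    · rw [Finset.mem_erase, Finset.mem_erase] at hl
      exact hs l hl.2.1 hl.1
  have haC : s a ≤ C := by
    have h2 : (s a) ^ 2 ≤ C ^ 2 := by
      have h3 : s a * s a ≤ s a * s b := Nat.mul_le_mul_left _ hle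
      nlinarith
    exact (Nat.pow_le_pow_iff_left (by norm_num)).1 h2
  refine ⟨by rw [hsum]; have := hG.1; omega, fun S hS hd ↦ ?_⟩
  set T : Finset V := ((Finset.univ.erase a).erase b).biUnion S with hT
  have hTc : T.card = k - 2 := by
    rw [hT, Finset.card_biUnion fun x _ y _ hxy ↦ hd x y hxy,
      Finset.sum_congr rfl (g := fun _ ↦ 1) (fun l hl ↦ ?_)]
    · rw [Finset.sum_const, smul_eq_mul, mul_one, Finset.card_erase_of_mem
        (Finset.mem_erase.2 ⟨hab.symm, Finset.mem_univ b⟩),
        Finset.card_erase_of_mem (Finset.mem_univ a), Finset.card_univ, Fintype.card_fin]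
      omega
    · rw [Finset.mem_erase, Finset.mem_erase] at hl
      rw [hS l, hs l hl.2.1 hl.1]
  have hXT : Disjoint (S a ∪ S b) T := by
    rw [hT, Finset.disjoint_biUnion_right]
    intro l hl
    rw [Finset.mem_erase, Finset.mem_erase] at hl
    rw [Finset.disjoint_union_left]
    exact ⟨hd a l hl.2.1.symm, hd b l hl.1.symm⟩
  obtain ⟨F₁, F₂, f1, f2, f4, f5, f3, f6, f7⟩ := link_rel (h1 a) hle hC' (T := T)
    (by rw [hTc]; exact hRG) (hS a) (hS b) (hd a b hab) hXT
  let FF : Fin k → Finset V := fun l ↦ if l = a then F₁ else if l = b then F₂ else S l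
  have FFa : FF a = F₁ := by simp [FF]
  have FFb : FF b = F₂ := by simp [FF, hab.symm]
  have FFl : ∀ l, l ≠ a → l ≠ b → FF l = S l := fun l h1 h2 ↦ by simp [FF, h1, h2]
  have hsub : ∀ l, S l ⊆ FF l := by
    intro l
    by_cases hla : l = a
    · rw [hla, FFa]
      exact f4
    by_cases hlb : l = b
    · rw [hlb, FFb]
      exact f5
    · rw [FFl l hla hlb]
  have hST : ∀ l, l ≠ a → l ≠ b → S l ⊆ T := by
    intro l hla hlb
    exact Finset.subset_biUnion_of_mem S
      (Finset.mem_erase.2 ⟨hlb, Finset.mem_erase.2 ⟨hla, Finset.mem_univ l⟩⟩)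
  have hcon : ∀ l, Conn G (FF l) := by
    intro l
    by_cases hla : l = a
    · rw [hla, FFa]
      exact f6
    by_cases hlb : l = b
    · rw [hlb, FFb]
      exact f7
    · rw [FFl l hla hlb]
      obtain ⟨x, hx⟩ := Finset.card_eq_one.1 ((hS l).trans (hs l hla hlb))
      rw [hx]
      exact conn_singleton x
  have dT : ∀ F : Finset V, F ⊆ Finset.univ \ T → ∀ l, l ≠ a → l ≠ b → Disjoint F (S l) := by
    intro F hF l hla hlb
    rw [Finset.disjoint_left]
    intro x hx hxS
    exact (Finset.mem_sdiff.1 (hF hx)).2 (hST l hla hlb hxS)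
  have hdis : ∀ l l', l ≠ l' → Disjoint (FF l) (FF l') := by
    intro l l' hne
    by_cases hla : l = a
    · subst hla
      rw [FFa]
      by_cases hlb' : l' = b
      · rw [hlb', FFb]
        exact f3
      · rw [FFl l' hne.symm hlb']
        exact dT _ f1 l' hne.symm hlb'
    by_cases hlb : l = b
    · subst hlb
      rw [FFb]
      by_cases hla' : l' = a
      · rw [hla', FFa]
        exact f3.symm
      · rw [FFl l' hla' hne.symm]
        exact dT _ f2 l' hla' hne.symm
    rw [FFl l hla hlb]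
    by_cases hla' : l' = a
    · rw [hla', FFa]
      exact (dT _ f1 l hla hlb).symm
    by_cases hlb' : l' = b
    · rw [hlb', FFb]
      exact (dT _ f2 l hla hlb).symm
    · rw [FFl l' hla' hlb']
      exact hd l l' hne
  refine ⟨fun l ↦ (⊤ : G.Subgraph).induce (FF l : Set V), fun l ↦ ?_, fun l ↦ ?_,
    fun l l' hne ↦ ?_⟩
  · refine connected_of_conn (hcon l) ?_
    have : (S l).Nonempty := Finset.card_pos.1 (by rw [hS l]; exact h1 l)
    exact this.mono (hsub l)
  · rw [SimpleGraph.Subgraph.induce_verts]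
    exact_mod_cast hsub l
  · rw [SimpleGraph.Subgraph.induce_verts, SimpleGraph.Subgraph.induce_verts]
    exact_mod_cast hdis l l' hne

/-- Sets indexed by `A` (total size `i`), a large set `S b`, and singletons. -/
private theorem many_sizes (k : ℕ) (s : Fin k → ℕ) (A : Finset (Fin k)) (b : Fin k) (C : ℕ)
    (hbA : b ∉ A) (h1 : ∀ l, 1 ≤ s l) (hs : ∀ l, l ∉ A → l ≠ b → s l = 1)
    (hC : 8 * √((∑ l ∈ A, (s l : ℝ)) * s b) + 150 * ∑ l ∈ A, (s l : ℝ) ≤ C)
    (V : Type) [Fintype V] (G : SimpleGraph V)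
    (hG : IsVertexConnected G (s b + C + (k - 1 - A.card))) : IsLinked G s := by
  have hRG := rconn_of hG
  have hb1 := h1 b
  set i : ℕ := ∑ l ∈ A, s l with hi
  have hcast : (∑ l ∈ A, (s l : ℝ)) = (i : ℝ) := by
    rw [hi]
    push_cast
    rfl
  rw [hcast] at hC
  set O : Finset (Fin k) := (Finset.univ.erase b) \ A with hO
  have hAb : A ⊆ Finset.univ.erase b := fun l hl ↦
    Finset.mem_erase.2 ⟨fun h ↦ hbA (h ▸ hl), Finset.mem_univ l⟩
  have hOc : O.card = k - 1 - A.card := by
    rw [hO, Finset.card_sdiff_of_subset hAb, Finset.card_erase_of_mem (Finset.mem_univ b),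
      Finset.card_univ, Fintype.card_fin]
  have hOs : ∀ l ∈ O, s l = 1 := fun l hl ↦ by
    rw [hO, Finset.mem_sdiff, Finset.mem_erase] at hl
    exact hs l hl.2 hl.1.1
  have hiC : i ≤ C := by
    have h2 : (i : ℝ) ≤ C := by
      have h3 : (0 : ℝ) ≤ 8 * √((i : ℝ) * s b) := by positivity
      have h4 : (0 : ℝ) ≤ i := by positivity
      linarith
    exact_mod_cast h2
  have hsum : ∑ l, s l = s b + (i + O.card) := by
    rw [← Finset.add_sum_erase _ s (Finset.mem_univ b), ← Finset.sum_sdiff hAb, ← hO,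
      Finset.sum_congr rfl hOs, Finset.sum_const, smul_eq_mul, mul_one, hi]
    omega
  refine ⟨by rw [hsum, hOc]; have := hG.1; omega, fun S hS hd ↦ ?_⟩
  set T : Finset V := O.biUnion S with hT
  have hTc : T.card = k - 1 - A.card := by
    rw [hT, Finset.card_biUnion fun x _ y _ hxy ↦ hd x y hxy,
      Finset.sum_congr rfl (g := fun _ ↦ 1) (fun l hl ↦ (hS l).trans (hOs l hl)),
      Finset.sum_const, smul_eq_mul, mul_one, hOc]
  set S₁ : Finset V := A.biUnion S with hS₁
  have hS₁c : S₁.card = i := by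
    rw [hS₁, Finset.card_biUnion fun x _ y _ hxy ↦ hd x y hxy,
      Finset.sum_congr rfl fun l _ ↦ hS l]
  have hd12 : Disjoint S₁ (S b) := by
    rw [hS₁, Finset.disjoint_biUnion_left]
    exact fun l hl ↦ hd l b fun h ↦ hbA (h ▸ hl)
  have hXT : Disjoint (S₁ ∪ S b) T := by
    rw [hT, Finset.disjoint_biUnion_right]
    intro l hl
    rw [hO, Finset.mem_sdiff, Finset.mem_erase] at hl
    rw [Finset.disjoint_union_left, hS₁, Finset.disjoint_biUnion_left]
    exact ⟨fun l' hl' ↦ hd l' l fun h ↦ hl.2 (h ▸ hl'), hd b l hl.1.1.symm⟩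
  -- the connected sets
  obtain ⟨FF, hFFs, hFFc, hFFd⟩ : ∃ FF : Fin k → Finset V, (∀ l, S l ⊆ FF l) ∧
      (∀ l, Conn G (FF l)) ∧ ∀ l l', l ≠ l' → Disjoint (FF l) (FF l') := by
    have hSO : ∀ l ∈ O, Conn G (S l) ∧ S l ⊆ T := fun l hl ↦ by
      obtain ⟨x, hx⟩ := Finset.card_eq_one.1 ((hS l).trans (hOs l hl))
      refine ⟨?_, Finset.subset_biUnion_of_mem S hl⟩
      rw [hx]
      exact conn_singleton x
    have hcases : ∀ l, l = b ∨ (l ∈ A ∧ l ≠ b ∧ l ∉ O) ∨ (l ∈ O ∧ l ≠ b ∧ l ∉ A) := by
      intro l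
      by_cases hlb : l = b
      · exact Or.inl hlb
      · by_cases hlA : l ∈ A
        · refine Or.inr (Or.inl ⟨hlA, hlb, fun h ↦ ?_⟩)
          exact (Finset.mem_sdiff.1 h).2 hlA
        · exact Or.inr (Or.inr ⟨Finset.mem_sdiff.2
            ⟨Finset.mem_erase.2 ⟨hlb, Finset.mem_univ l⟩, hlA⟩, hlb, hlA⟩)
    have hTdis : ∀ F : Finset V, F ⊆ Finset.univ \ T → ∀ l ∈ O, Disjoint F (S l) := by
      intro F hF l hl
      rw [Finset.disjoint_left]
      intro x hx hxS
      exact (Finset.mem_sdiff.1 (hF hx)).2 ((hSO l hl).2 hxS)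
    rcases Nat.eq_zero_or_pos i with hi0 | hi1
    · -- no small sets
      have hAe : A = ∅ := by
        rw [Finset.eq_empty_iff_forall_notMem]
        intro l hl
        have h2 : s l ≤ i := Finset.single_le_sum (f := s) (fun _ _ ↦ Nat.zero_le _) hl
        have := h1 l
        omega
      have hAn : ∀ l, l ∉ A := fun l ↦ by simp [hAe]
      refine ⟨fun l ↦ if l = b then Finset.univ \ T else S l, fun l ↦ ?_, fun l ↦ ?_,
        fun l l' hne ↦ ?_⟩
      · rcases hcases l with h | h | h
        · simp only [h, if_true]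
          intro x hx
          exact Finset.mem_sdiff.2 ⟨Finset.mem_univ x, fun hxT ↦
            Finset.disjoint_left.1 hXT (Finset.mem_union_right _ hx) hxT⟩
        · exact absurd h.1 (hAn l)
        · simp only [h.2.1, if_false]
          exact Finset.Subset.refl _
      · rcases hcases l with h | h | h
        · simp only [h, if_true]
          exact hRG.conn_compl (by omega)
        · exact absurd h.1 (hAn l)
        · simp only [h.2.1, if_false]
          exact (hSO l h.1).1
      · rcases hcases l with h | h | h <;> rcases hcases l' with h' | h' | h'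
        · exact absurd (h.trans h'.symm) hne
        · exact absurd h'.1 (hAn l')
        · simp only [h, h'.2.1, if_true, if_false]
          exact hTdis _ (Finset.Subset.refl _) l' h'.1
        · exact absurd h.1 (hAn l)
        · exact absurd h.1 (hAn l)
        · exact absurd h.1 (hAn l)
        · simp only [h', h.2.1, if_true, if_false]
          exact (hTdis _ (Finset.Subset.refl _) l h.1).symm
        · exact absurd h'.1 (hAn l')
        · simp only [h.2.1, h'.2.1, if_false]
          exact hd l l' hne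
    · -- the labels
      let φ : V → ℕ := fun x ↦ if h : ∃ l ∈ A, x ∈ S l then (h.choose : ℕ) else 0
      have hφ : ∀ l ∈ A, ∀ x ∈ S l, φ x = l := by
        intro l hl x hx
        have hex : ∃ l ∈ A, x ∈ S l := ⟨l, hl, hx⟩
        have h2 : φ x = (hex.choose : ℕ) := dif_pos hex
        rw [h2]
        have h3 := hex.choose_spec
        by_contra hne
        have hne' : hex.choose ≠ l := fun h ↦ hne (by rw [h])
        exact Finset.disjoint_left.1 (hd _ _ hne') h3.2 hx
      obtain ⟨F, FT, g1, g2, g3, g4, g5, g6, g7, g8⟩ := linkA_rel hi1 hb1 hC (T := T)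
        (by rw [hTc]; exact hRG) hS₁c (hS b) hd12 hXT φ
      refine ⟨fun l ↦ if l = b then FT else if l ∈ A then F l else S l, fun l ↦ ?_, fun l ↦ ?_,
        fun l l' hne ↦ ?_⟩
      · rcases hcases l with h | h | h
        · simp only [h, if_true]
          exact g4
        · simp only [h.1, h.2.1, if_true, if_false]
          intro x hx
          have h2 := g3 x (Finset.mem_biUnion.2 ⟨l, h.1, hx⟩)
          rwa [hφ l h.1 x hx] at h2
        · simp only [h.2.1, h.2.2, if_false]
          exact Finset.Subset.refl _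
      · rcases hcases l with h | h | h
        · simp only [h, if_true]
          exact g8
        · simp only [h.1, h.2.1, if_true, if_false]
          exact g7 _
        · simp only [h.2.1, h.2.2, if_false]
          exact (hSO l h.1).1
      · rcases hcases l with h | h | h <;> rcases hcases l' with h' | h' | h'
        · exact absurd (h.trans h'.symm) hne
        · simp only [h, h'.1, h'.2.1, if_true, if_false]
          exact (g5 _).symm
        · simp only [h, h'.2.1, h'.2.2, if_true, if_false]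
          exact hTdis _ g2 l' h'.1
        · simp only [h', h.1, h.2.1, if_true, if_false]
          exact g5 _
        · simp only [h.1, h.2.1, h'.1, h'.2.1, if_true, if_false]
          exact g6 _ _ fun h2 ↦ hne (Fin.ext h2)
        · simp only [h.1, h.2.1, h'.2.1, h'.2.2, if_true, if_false]
          exact hTdis _ (g1 _) l' h'.1
        · simp only [h', h.2.1, h.2.2, if_true, if_false]
          exact (hTdis _ g2 l h.1).symm
        · simp only [h'.1, h'.2.1, h.2.1, h.2.2, if_true, if_false]
          exact (hTdis _ (g1 _) l h.1).symm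
        · simp only [h.2.1, h.2.2, h'.2.1, h'.2.2, if_false]
          exact hd l l' hne
  refine ⟨fun l ↦ (⊤ : G.Subgraph).induce (FF l : Set V), fun l ↦ ?_, fun l ↦ ?_,
    fun l l' hne ↦ ?_⟩
  · refine connected_of_conn (hFFc l) ?_
    have : (S l).Nonempty := Finset.card_pos.1 (by rw [hS l]; exact h1 l)
    exact this.mono (hFFs l)
  · rw [SimpleGraph.Subgraph.induce_verts]
    exact_mod_cast hFFs l
  · rw [SimpleGraph.Subgraph.induce_verts, SimpleGraph.Subgraph.induce_verts]
    exact_mod_cast hFFd l l' hne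

/-- The third statement: two sets, with a better constant. -/
private theorem two_sets (i j C : ℕ) (hi : 1 ≤ i) (hj : 1 ≤ j)
    (hC : 4 * √((i : ℝ) * j) + 23 * i ≤ C) (V : Type) [Fintype V] (G : SimpleGraph V)
    (hG : IsVertexConnected G (j + C)) : IsLinked G ![i, j] := by
  have hiC : i ≤ C := by
    have h2 : (i : ℝ) ≤ C := by
      have h3 : (0 : ℝ) ≤ 4 * √((i : ℝ) * j) := by positivity
      have h4 : (0 : ℝ) ≤ i := by positivity
      linarith
    exact_mod_cast h2
  refine ⟨?_, fun S hS hd ↦ ?_⟩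
  · rw [Fin.sum_univ_two]
    have := hG.1
    simp only [Matrix.cons_val_zero, Matrix.cons_val_one]
    omega
  · have h01 : (0 : Fin 2) ≠ 1 := by decide
    obtain ⟨F₁, F₂, f1, f2, f3, f4, f5⟩ := link_two hi hj hC (rconn_of hG) (S₁ := S 0)
      (S₂ := S 1) (hS 0) (hS 1) (hd 0 1 h01)
    refine ⟨fun l ↦ (⊤ : G.Subgraph).induce ((![F₁, F₂] l : Finset V) : Set V), ?_, ?_, ?_⟩
    · intro l
      have hn : (S l).Nonempty := Finset.card_pos.1 (by
        rw [hS l]
        fin_cases l
        · exact hi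
        · exact hj)
      fin_cases l
      · exact connected_of_conn f4 (hn.mono f1)
      · exact connected_of_conn f5 (hn.mono f2)
    · intro l
      rw [SimpleGraph.Subgraph.induce_verts]
      fin_cases l
      · exact_mod_cast f1
      · exact_mod_cast f2
    · intro l l' hne
      rw [SimpleGraph.Subgraph.induce_verts, SimpleGraph.Subgraph.induce_verts]
      fin_cases l <;> fin_cases l'
      · exact absurd rfl hne
      · exact_mod_cast f3
      · exact_mod_cast f3.symm
      · exact absurd rfl hne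

/-- **Main theorem.**

1. Let `s_a ≤ s_b` be two of the sizes, let the other `k - 2` sizes be `1`, and let `C` be an
integer with `C ≥ 6 √(s_a s_b)`.  Then every `(s_b + C + k - 2)`-connected graph is
`(s₁, …, s_k)`-linked.  In particular (`k = 2`) `(j + C)`-connected graphs are `(i, j)`-linked if
`1 ≤ i ≤ j` and `C ≥ 6 √(i j)`.
2. A better constant for `i` much smaller than `j`: `(j + C)`-connected graphs are
`(i, j)`-linked if `C ≥ 4 √(i j) + 23 i`.
3. Many sets: let `s_b` be one of the sizes, let `A` be a set of indices different from `b`, with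
total size `i = ∑ l ∈ A, s_l`, and let the other `k - 1 - |A|` sizes be `1`.  If
`C ≥ 8 √(i s_b) + 150 i` then every `(s_b + C + k - 1 - |A|)`-connected graph is
`(s₁, …, s_k)`-linked. -/
theorem result :
    (∀ (k : ℕ) (s : Fin k → ℕ) (a b : Fin k) (C : ℕ), a ≠ b → (∀ l, 1 ≤ s l) →
      (∀ l, l ≠ a → l ≠ b → s l = 1) → s a ≤ s b → 6 * √((s a : ℝ) * s b) ≤ C →
      ∀ (V : Type) [Fintype V] (G : SimpleGraph V),
        IsVertexConnected G (s b + C + (k - 2)) → IsLinked G s) ∧
    (∀ i j C : ℕ, 1 ≤ i → 1 ≤ j → 4 * √((i : ℝ) * j) + 23 * i ≤ C →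
      ∀ (V : Type) [Fintype V] (G : SimpleGraph V),
        IsVertexConnected G (j + C) → IsLinked G ![i, j]) ∧
    (∀ (k : ℕ) (s : Fin k → ℕ) (A : Finset (Fin k)) (b : Fin k) (C : ℕ), b ∉ A →
      (∀ l, 1 ≤ s l) → (∀ l, l ∉ A → l ≠ b → s l = 1) →
      8 * √((∑ l ∈ A, (s l : ℝ)) * s b) + 150 * ∑ l ∈ A, (s l : ℝ) ≤ C →
      ∀ (V : Type) [Fintype V] (G : SimpleGraph V),
        IsVertexConnected G (s b + C + (k - 1 - A.card)) → IsLinked G s) :=
  ⟨fun k s a b C h1 h2 h3 h4 h5 V _ G hG ↦ two_sizes k s a b C h1 h2 h3 h4 h5 V G hG,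
    fun i j C h1 h2 h3 V _ G hG ↦ two_sets i j C h1 h2 h3 V G hG,
    fun k s A b C h1 h2 h3 h4 V _ G hG ↦ many_sizes k s A b C h1 h2 h3 h4 V G hG⟩

end Pool.Agent.Results.MP_dd17fe_co.AsymptoticThreshold
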