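import Mathlib

/-!
# Highly connected graphs that are not `(s₁, …, s_k)`-linked

For `s_a ≥ 2` and `s_b ≥ 3` we construct an `(s_b + 2 + ∑_{l ≠ a, b} s_l)`-connected graph that is
not `(s₁, …, s_k)`-linked.

The example for two sets (`j = q + 2 = s_b`): a triangulated strip with boundary cycle
`s, u₀, …, u_{mq}, t, w_{m-1}, …, w₀`, where `w_k` is joined to the `q + 1` consecutive vertices
`u_{kq}, …, u_{(k+1)q}`, together with a clique `R` on `q + 1` vertices joined to all the `u_l` and
to `s, t`, and a vertex `tau` joined to all the `w_k` and to `s, t`.  A connected subgraph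
containing `s` and `t` and avoiding `R` and `tau` meets every pair `{u_l, w_k}` of neighbours, and
so separates `R` from `tau`.  For more sets one adds vertices joined to everything.
-/

namespace Pool.Agent.Results.MP_dd17fe_co.ConnectivityLowerBound

/-- `G` is `r`-connected: it has more than `r` vertices, and it stays connected after deleting any
set of fewer than `r` vertices. -/
def IsVertexConnected {V : Type} [Fintype V] (G : SimpleGraph V) (r : ℕ) : Prop :=
  r < Fintype.card V ∧ ∀ X : Finset V, X.card < r → (G.induce {v : V | v ∉ X}).Connected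

/-- `G` is `(s₁, …, s_k)`-linked: it has at least `s₁ + ⋯ + s_k` vertices, and for all pairwise
disjoint vertex sets `S₁, …, S_k` with `|S_i| = s_i` there are pairwise vertex-disjoint connected
subgraphs `F₁, …, F_k` with `S_i ⊆ V(F_i)` for every `i`. -/
def IsLinked {V : Type} [Fintype V] (G : SimpleGraph V) {k : ℕ} (s : Fin k → ℕ) : Prop :=
  ∑ i, s i ≤ Fintype.card V ∧
  ∀ S : Fin k → Finset V, (∀ i, (S i).card = s i) → (∀ i j, i ≠ j → Disjoint (S i) (S j)) →
    ∃ F : Fin k → G.Subgraph,
      (∀ i, (F i).Connected) ∧ (∀ i, (S i : Set V) ⊆ (F i).verts) ∧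
      ∀ i j, i ≠ j → Disjoint (F i).verts (F j).verts

/-- The vertices of the example. -/
inductive Vtx (β : Type) (q m : ℕ) : Type
  | s : Vtx β q m
  | t : Vtx β q m
  | tau : Vtx β q m
  | R (i : Fin (q + 1)) : Vtx β q m
  | u (i : Fin (m * q + 1)) : Vtx β q m
  | w (k : Fin m) : Vtx β q m
  | x (y : β) : Vtx β q m

open Vtx

/-- The vertex type as a sum type. -/
def vtxEquiv (β : Type) (q m : ℕ) :
    Vtx β q m ≃ (Fin 3 ⊕ Fin (q + 1) ⊕ Fin (m * q + 1) ⊕ Fin m ⊕ β) where
  toFun v := match v with
    | s => Sum.inl 0
    | t => Sum.inl 1
    | tau => Sum.inl 2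
    | R i => Sum.inr (Sum.inl i)
    | u i => Sum.inr (Sum.inr (Sum.inl i))
    | w i => Sum.inr (Sum.inr (Sum.inr (Sum.inl i)))
    | x y => Sum.inr (Sum.inr (Sum.inr (Sum.inr y)))
  invFun v := match v with
    | Sum.inl 0 => s
    | Sum.inl 1 => t
    | Sum.inl 2 => tau
    | Sum.inr (Sum.inl i) => R i
    | Sum.inr (Sum.inr (Sum.inl i)) => u i
    | Sum.inr (Sum.inr (Sum.inr (Sum.inl i))) => w i
    | Sum.inr (Sum.inr (Sum.inr (Sum.inr y))) => x y
  left_inv v := by cases v <;> rfl
  right_inv v := by
    rcases v with i | i | i | i | i
    · fin_cases i <;> rfl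
    · rfl
    · rfl
    · rfl
    · rfl

instance (β : Type) [Fintype β] (q m : ℕ) : Fintype (Vtx β q m) :=
  Fintype.ofEquiv _ (vtxEquiv β q m).symm

theorem card_vtx (β : Type) [Fintype β] (q m : ℕ) :
    Fintype.card (Vtx β q m) = 3 + (q + 1) + (m * q + 1) + m + Fintype.card β := by
  rw [Fintype.card_congr (vtxEquiv β q m)]
  simp only [Fintype.card_sum, Fintype.card_fin]
  ring

/-- Oriented edges of the example. -/
inductive E (β : Type) (q m : ℕ) : Vtx β q m → Vtx β q m → Prop
  | univ (y : β) (v : Vtx β q m) (h : v ≠ x y) : E β q m (x y) v
  | RR (i i' : Fin (q + 1)) (h : i ≠ i') : E β q m (R i) (R i')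
  | sR (i : Fin (q + 1)) : E β q m s (R i)
  | tR (i : Fin (q + 1)) : E β q m t (R i)
  | uR (i : Fin (q + 1)) (l : Fin (m * q + 1)) : E β q m (u l) (R i)
  | stau : E β q m s tau
  | ttau : E β q m t tau
  | wtau (k : Fin m) : E β q m (w k) tau
  | su (l : Fin (m * q + 1)) (h : l.val = 0) : E β q m s (u l)
  | sw (k : Fin m) (h : k.val = 0) : E β q m s (w k)
  | ut (l : Fin (m * q + 1)) (h : l.val = m * q) : E β q m (u l) t
  | wt (k : Fin m) (h : k.val + 1 = m) : E β q m (w k) t
  | uu (l l' : Fin (m * q + 1)) (h : l.val + 1 = l'.val) : E β q m (u l) (u l')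
  | ww (k k' : Fin m) (h : k.val + 1 = k'.val) : E β q m (w k) (w k')
  | uw (l : Fin (m * q + 1)) (k : Fin m) (h₁ : k.val * q ≤ l.val)
      (h₂ : l.val ≤ k.val * q + q) : E β q m (u l) (w k)

theorem E.ne {β : Type} {q m : ℕ} {v v' : Vtx β q m} (h : E β q m v v') : v ≠ v' := by
  rintro rfl
  cases h with
  | univ y v h => exact h rfl
  | RR i i' h => exact h rfl
  | uu l l' h => omega
  | ww k k' h => omega

/-- The example. -/
def G (β : Type) (q m : ℕ) : SimpleGraph (Vtx β q m) where
  Adj v v' := E β q m v v' ∨ E β q m v' v
  symm := ⟨fun _ _ h => h.symm⟩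
  loopless := ⟨fun v h => by
    rcases h with h | h
    · exact h.ne rfl
    · exact h.ne rfl⟩

theorem E.adj {β : Type} {q m : ℕ} {v v' : Vtx β q m} (h : E β q m v v') :
    (G β q m).Adj v v' := Or.inl h

section Connectivity

variable {β : Type} {q m : ℕ}

/-- Both vertices survive the deletion of `X`, and they are joined in what remains. -/
def Joined (X : Finset (Vtx β q m)) (a b : Vtx β q m) : Prop :=
  ∃ (ha : a ∉ X) (hb : b ∉ X), ((G β q m).induce {v | v ∉ X}).Reachable ⟨a, ha⟩ ⟨b, hb⟩

theorem Joined.refl {X : Finset (Vtx β q m)} {a : Vtx β q m} (ha : a ∉ X) : Joined X a a :=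
  ⟨ha, ha, SimpleGraph.Reachable.refl _⟩

theorem Joined.symm {X : Finset (Vtx β q m)} {a b : Vtx β q m} (h : Joined X a b) :
    Joined X b a := by
  obtain ⟨ha, hb, h⟩ := h
  exact ⟨hb, ha, h.symm⟩

theorem Joined.trans {X : Finset (Vtx β q m)} {a b c : Vtx β q m} (h : Joined X a b)
    (h' : Joined X b c) : Joined X a c := by
  obtain ⟨ha, hb, h⟩ := h
  obtain ⟨_, hc, h'⟩ := h'
  exact ⟨ha, hc, h.trans h'⟩

theorem Joined.of_adj {X : Finset (Vtx β q m)} {a b : Vtx β q m} (ha : a ∉ X) (hb : b ∉ X)
    (h : (G β q m).Adj a b) : Joined X a b :=
  ⟨ha, hb, SimpleGraph.Adj.reachable (by simpa using h)⟩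

theorem Joined.of_E {X : Finset (Vtx β q m)} {a b : Vtx β q m} (ha : a ∉ X) (hb : b ∉ X)
    (h : E β q m a b) : Joined X a b := Joined.of_adj ha hb h.adj

theorem connected_of_center {X : Finset (Vtx β q m)} (c : Vtx β q m) (hc : c ∉ X)
    (h : ∀ v, v ∉ X → Joined X v c) : ((G β q m).induce {v | v ∉ X}).Connected := by
  have : Nonempty {v : Vtx β q m | v ∉ X} := ⟨⟨c, hc⟩⟩
  refine SimpleGraph.Connected.mk ?_
  rintro ⟨a, ha⟩ ⟨b, hb⟩
  obtain ⟨_, _, h1⟩ := h a ha
  obtain ⟨_, _, h2⟩ := h b hb
  exact h1.trans h2.symm

/-- Going left along the vertices `u`. -/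
theorem u_left {X : Finset (Vtx β q m)} (hs : (s : Vtx β q m) ∉ X) :
    ∀ (n : ℕ) (hn : n < m * q + 1),
      (∀ l : Fin (m * q + 1), l.val ≤ n → (u l : Vtx β q m) ∉ X) →
      Joined X (u ⟨n, hn⟩) s
  | 0, hn, h => (Joined.of_E hs (h _ le_rfl) (E.su _ rfl)).symm
  | n + 1, hn, h => by
      have h1 := u_left hs n (by omega) (fun l hl => h l (by omega))
      have h2 : Joined X (u ⟨n, by omega⟩) (u ⟨n + 1, hn⟩) :=
        Joined.of_E (h _ (by simp)) (h _ le_rfl) (E.uu _ _ rfl)
      exact h2.symm.trans h1

/-- Going right along the vertices `u`. -/
theorem u_right {X : Finset (Vtx β q m)} (ht : (t : Vtx β q m) ∉ X) :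
    ∀ (d n : ℕ) (hn : n < m * q + 1), n + d = m * q →
      (∀ l : Fin (m * q + 1), n ≤ l.val → (u l : Vtx β q m) ∉ X) →
      Joined X (u ⟨n, hn⟩) t
  | 0, n, hn, hd, h => Joined.of_E (h _ le_rfl) ht (E.ut _ (by simpa using hd))
  | d + 1, n, hn, hd, h => by
      have h1 := u_right ht d (n + 1) (by omega) (by omega) (fun l hl => h l (by omega))
      have h2 : Joined X (u ⟨n, hn⟩) (u ⟨n + 1, by omega⟩) :=
        Joined.of_E (h _ le_rfl) (h _ (by simp)) (E.uu _ _ rfl)
      exact h2.trans h1

/-- Going left along the vertices `w`. -/
theorem w_left {X : Finset (Vtx β q m)} (hs : (s : Vtx β q m) ∉ X) :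
    ∀ (n : ℕ) (hn : n < m), (∀ k : Fin m, k.val ≤ n → (w k : Vtx β q m) ∉ X) →
      Joined X (w ⟨n, hn⟩) s
  | 0, hn, h => (Joined.of_E hs (h _ le_rfl) (E.sw _ rfl)).symm
  | n + 1, hn, h => by
      have h1 := w_left hs n (by omega) (fun l hl => h l (by omega))
      have h2 : Joined X (w ⟨n, by omega⟩) (w ⟨n + 1, hn⟩) :=
        Joined.of_E (h _ (by simp)) (h _ le_rfl) (E.ww _ _ rfl)
      exact h2.symm.trans h1

/-- Going right along the vertices `w`. -/
theorem w_right {X : Finset (Vtx β q m)} (ht : (t : Vtx β q m) ∉ X) :
    ∀ (d n : ℕ) (hn : n < m), n + d + 1 = m →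
      (∀ k : Fin m, n ≤ k.val → (w k : Vtx β q m) ∉ X) →
      Joined X (w ⟨n, hn⟩) t
  | 0, n, hn, hd, h => Joined.of_E (h _ le_rfl) ht (E.wt _ (by simpa using hd))
  | d + 1, n, hn, hd, h => by
      have h1 := w_right ht d (n + 1) (by omega) (by omega) (fun l hl => h l (by omega))
      have h2 : Joined X (w ⟨n, hn⟩) (w ⟨n + 1, by omega⟩) :=
        Joined.of_E (h _ le_rfl) (h _ (by simp)) (E.ww _ _ rfl)
      exact h2.trans h1

/-- Counting: if `X` has at most `q + 3 + |β|` elements and contains all the `x y` and a set `B`
with `q + 1` elements, then `X` does not contain three more elements. -/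
theorem three_out [Fintype β] {X : Finset (Vtx β q m)}
    (hX : X.card < q + 4 + Fintype.card β) (hx : ∀ y, (x y : Vtx β q m) ∈ X)
    {B : Finset (Vtx β q m)} (hB : B.card = q + 1) (hBx : ∀ y, (x y : Vtx β q m) ∉ B)
    (hBX : B ⊆ X) {a b c : Vtx β q m} (ha : a ∉ B) (hb : b ∉ B) (hc : c ∉ B)
    (hax : ∀ y, a ≠ x y) (hbx : ∀ y, b ≠ x y) (hcx : ∀ y, c ≠ x y)
    (hab : a ≠ b) (hac : a ≠ c) (hbc : b ≠ c)
    (haX : a ∈ X) (hbX : b ∈ X) (hcX : c ∈ X) : False := by
  classical
  have hxinj : Function.Injective (x : β → Vtx β q m) := by
    intro y y' h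
    simpa using h
  have h1 : ((Finset.univ : Finset β).image (x : β → Vtx β q m)).card = Fintype.card β := by
    rw [Finset.card_image_of_injective _ hxinj, Finset.card_univ]
  have h2 : Disjoint ((Finset.univ : Finset β).image (x : β → Vtx β q m)) B := by
    rw [Finset.disjoint_left]
    intro v hv
    simp only [Finset.mem_image, Finset.mem_univ, true_and] at hv
    obtain ⟨y, rfl⟩ := hv
    exact hBx y
  have h3 : ({a, b, c} : Finset (Vtx β q m)).card = 3 :=
    Finset.card_eq_three.2 ⟨a, b, c, hab, hac, hbc, rfl⟩
  have h4 : Disjoint ((Finset.univ : Finset β).image (x : β → Vtx β q m) ∪ B) {a, b, c} := by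
    rw [Finset.disjoint_right]
    intro v hv
    simp only [Finset.mem_insert, Finset.mem_singleton] at hv
    simp only [Finset.mem_union, Finset.mem_image, Finset.mem_univ, true_and, not_or, not_exists]
    rcases hv with rfl | rfl | rfl
    · exact ⟨fun y hy => hax y hy.symm, ha⟩
    · exact ⟨fun y hy => hbx y hy.symm, hb⟩
    · exact ⟨fun y hy => hcx y hy.symm, hc⟩
  have h5 : ((Finset.univ : Finset β).image (x : β → Vtx β q m) ∪ B) ∪ {a, b, c} ⊆ X := by
    intro v hv
    simp only [Finset.mem_union, Finset.mem_image, Finset.mem_univ, true_and, Finset.mem_insert,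
      Finset.mem_singleton] at hv
    rcases hv with (⟨y, rfl⟩ | hv) | rfl | rfl | rfl
    · exact hx y
    · exact hBX hv
    · exact haX
    · exact hbX
    · exact hcX
  have h6 := Finset.card_le_card h5
  rw [Finset.card_union_of_disjoint h4, Finset.card_union_of_disjoint h2, h1, hB, h3] at h6
  omega

theorem block_lt {k : ℕ} (hk : k < m) {i : ℕ} (hi : i ≤ q) : k * q + i < m * q + 1 := by
  have h1 : (k + 1) * q ≤ m * q := Nat.mul_le_mul_right _ hk
  have h2 : (k + 1) * q = k * q + q := by ring
  omega

open Classical in
/-- The block of the `u`-neighbours of `w k`. -/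
noncomputable def block (β : Type) (q m : ℕ) (k : Fin m) : Finset (Vtx β q m) :=
  (Finset.univ : Finset (Fin (q + 1))).image
    (fun i => u ⟨k.val * q + i.val, block_lt k.isLt (by omega)⟩)

theorem block_card (k : Fin m) : (block β q m k).card = q + 1 := by
  classical
  rw [block, Finset.card_image_of_injective, Finset.card_univ, Fintype.card_fin]
  intro i i' h
  simp only [u.injEq, Fin.mk.injEq] at h
  exact Fin.ext (by omega)

theorem mem_block {k : Fin m} {v : Vtx β q m} (hv : v ∈ block β q m k) :
    ∃ l : Fin (m * q + 1), v = u l ∧ k.val * q ≤ l.val ∧ l.val ≤ k.val * q + q := by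
  classical
  simp only [block, Finset.mem_image, Finset.mem_univ, true_and] at hv
  obtain ⟨i, rfl⟩ := hv
  have := i.isLt
  refine ⟨_, rfl, ?_, ?_⟩
  · simp
  · simp only
    omega

theorem Rset_card [DecidableEq (Vtx β q m)] :
    ((Finset.univ : Finset (Fin (q + 1))).image (R : Fin (q + 1) → Vtx β q m)).card = q + 1 := by
  rw [Finset.card_image_of_injective, Finset.card_univ, Fintype.card_fin]
  intro i i' h
  simpa using h

/-- The example is `(q + 4 + |β|)`-connected. -/
theorem G_connected [Fintype β] (hq : 1 ≤ q) (hm : q + 2 ≤ m) :
    IsVertexConnected (G β q m) (q + 4 + Fintype.card β) := by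
  classical
  refine ⟨by rw [card_vtx]; omega, ?_⟩
  intro X hX
  -- a universal vertex
  by_cases hx : ∃ y, (x y : Vtx β q m) ∉ X
  · obtain ⟨y, hy⟩ := hx
    refine connected_of_center (x y) hy ?_
    intro v hv
    by_cases hvx : v = x y
    · rw [hvx]
      exact Joined.refl hy
    · exact (Joined.of_E hy hv (E.univ y v hvx)).symm
  push Not at hx
  by_cases hR : ∃ i, (R i : Vtx β q m) ∉ X
  · -- some vertex of `R` survives
    obtain ⟨i₀, hi₀⟩ := hR
    have hRu : ∀ l, (u l : Vtx β q m) ∉ X → Joined X (u l) (R i₀) := fun l hl =>
      Joined.of_E hl hi₀ (E.uR i₀ l)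
    have hRs : (s : Vtx β q m) ∉ X → Joined X s (R i₀) := fun h =>
      Joined.of_E h hi₀ (E.sR i₀)
    have hRt : (t : Vtx β q m) ∉ X → Joined X t (R i₀) := fun h =>
      Joined.of_E h hi₀ (E.tR i₀)
    -- a surviving vertex of a block
    have hw1 : ∀ (k : Fin m), (w k : Vtx β q m) ∉ X →
        ∀ l : Fin (m * q + 1), (u l : Vtx β q m) ∉ X → k.val * q ≤ l.val →
          l.val ≤ k.val * q + q → Joined X (w k) (R i₀) := by
      intro k hk l hl h1 h2
      exact (Joined.of_E hl hk (E.uw l k h1 h2)).symm.trans (hRu l hl)
    have hw : ∀ k : Fin m, (w k : Vtx β q m) ∉ X → Joined X (w k) (R i₀) := by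
      intro k hk
      by_cases hb : ∃ l : Fin (m * q + 1), (u l : Vtx β q m) ∉ X ∧ k.val * q ≤ l.val ∧
          l.val ≤ k.val * q + q
      · obtain ⟨l, hl, h1, h2⟩ := hb
        exact hw1 k hk l hl h1 h2
      push Not at hb
      have hBX : block β q m k ⊆ X := by
        intro v hv
        obtain ⟨l, rfl, h1, h2⟩ := mem_block hv
        by_contra hcon
        exact absurd h2 (not_le.2 (hb l hcon h1))
      have hnb : ∀ v : Vtx β q m, (∀ l : Fin (m * q + 1), k.val * q ≤ l.val →
          l.val ≤ k.val * q + q → v ≠ u l) → v ∉ block β q m k := by
        intro v hv hv'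
        obtain ⟨l, h0, h1, h2⟩ := mem_block hv'
        exact hv l h1 h2 h0
      have hthree : ∀ a b c : Vtx β q m,
          (∀ l : Fin (m * q + 1), k.val * q ≤ l.val → l.val ≤ k.val * q + q → a ≠ u l) →
          (∀ l : Fin (m * q + 1), k.val * q ≤ l.val → l.val ≤ k.val * q + q → b ≠ u l) →
          (∀ l : Fin (m * q + 1), k.val * q ≤ l.val → l.val ≤ k.val * q + q → c ≠ u l) →
          (∀ y, a ≠ x y) → (∀ y, b ≠ x y) → (∀ y, c ≠ x y) →
          a ≠ b → a ≠ c → b ≠ c → a ∈ X → b ∈ X → c ∈ X → False := by
        intro a b c ha hb hc hax hbx hcx hab hac hbc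
        refine three_out hX hx (block_card k) ?_ hBX (hnb a ha) (hnb b hb) (hnb c hc)
          hax hbx hcx hab hac hbc
        intro y hy
        obtain ⟨l, hl, -⟩ := mem_block hy
        cases hl
      by_cases htau : (tau : Vtx β q m) ∈ X
      · -- go left or right
        -- right
        by_cases hright : ∃ z : Vtx β q m, z ∈ X ∧ (z = t ∨ ∃ (k' : Fin m), k'.val = k.val + 1 ∧
            (z = w k' ∨ ∃ l : Fin (m * q + 1), l.val = k'.val * q + q ∧ z = u l))
        · by_cases hleft : ∃ z : Vtx β q m, z ∈ X ∧ (z = s ∨ ∃ (k' : Fin m),
              k'.val + 1 = k.val ∧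
              (z = w k' ∨ ∃ l : Fin (m * q + 1), l.val = k'.val * q ∧ z = u l))
          · exfalso
            obtain ⟨z, hz, hz'⟩ := hright
            obtain ⟨z', hz1, hz1'⟩ := hleft
            have e1 : ∀ l : Fin (m * q + 1), k.val * q ≤ l.val → l.val ≤ k.val * q + q →
                z ≠ u l := by
              rintro l h1 h2 rfl
              rcases hz' with h | ⟨k', hk', h | ⟨l', hl', h⟩⟩
              · cases h
              · cases h
              · cases h
                rw [hl', hk'] at h2
                have : (k.val + 1) * q = k.val * q + q := by ring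
                omega
            have e2 : ∀ l : Fin (m * q + 1), k.val * q ≤ l.val → l.val ≤ k.val * q + q →
                z' ≠ u l := by
              rintro l h1 h2 rfl
              rcases hz1' with h | ⟨k', hk', h | ⟨l', hl', h⟩⟩
              · cases h
              · cases h
              · cases h
                rw [hl', ← hk'] at h1
                have : (k'.val + 1) * q = k'.val * q + q := by ring
                omega
            have e3 : z ≠ z' := by
              rintro rfl
              rcases hz' with rfl | ⟨k', hk', rfl | ⟨l', hl', rfl⟩⟩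
              · rcases hz1' with h | ⟨k', hk', h | ⟨l', hl', h⟩⟩ <;> cases h
              · rcases hz1' with h | ⟨k'', hk'', h | ⟨l', hl', h⟩⟩
                · cases h
                · cases h
                  omega
                · cases h
              · rcases hz1' with h | ⟨k'', hk'', h | ⟨l'', hl'', h⟩⟩
                · cases h
                · cases h
                · cases h
                  rw [hl''] at hl'
                  have : k''.val * q ≤ k'.val * q := Nat.mul_le_mul_right _ (by omega)
                  omega
            refine hthree tau z z' (fun l _ _ h => by cases h) e1 e2 (fun y h => by cases h)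
              ?_ ?_ ?_ ?_ e3 htau hz hz1
            · rintro y rfl
              rcases hz' with h | ⟨k', hk', h | ⟨l', hl', h⟩⟩ <;> cases h
            · rintro y rfl
              rcases hz1' with h | ⟨k', hk', h | ⟨l', hl', h⟩⟩ <;> cases h
            · rintro rfl
              rcases hz' with h | ⟨k', hk', h | ⟨l', hl', h⟩⟩ <;> cases h
            · rintro rfl
              rcases hz1' with h | ⟨k', hk', h | ⟨l', hl', h⟩⟩ <;> cases h
          · -- left is free
            push Not at hleft
            by_cases hk0 : k.val = 0
            · have hs : (s : Vtx β q m) ∉ X := fun h => (hleft s h).1 rfl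
              exact (Joined.of_E hs hk (E.sw k hk0)).symm.trans (hRs hs)
            · have hk' : (w (⟨k.val - 1, by omega⟩ : Fin m) : Vtx β q m) ∉ X := fun h =>
                ((hleft _ h).2 ⟨k.val - 1, by omega⟩ (by simp only; omega)).1 rfl
              have hl' : (u (⟨(k.val - 1) * q, by
                  have := block_lt (q := q) (i := 0) (show k.val - 1 < m by omega) (by omega)
                  omega⟩ : Fin (m * q + 1)) : Vtx β q m) ∉ X := fun h =>
                ((hleft _ h).2 ⟨k.val - 1, by omega⟩ (by simp only; omega)).2 _ rfl rfl
              have h1 := hw1 ⟨k.val - 1, by omega⟩ hk' _ hl' (by simp) (by simp)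
              exact (Joined.of_E hk' hk (E.ww _ _ (by simp only; omega))).symm.trans h1
        · -- right is free
          push Not at hright
          by_cases hkm : k.val + 1 = m
          · have ht : (t : Vtx β q m) ∉ X := fun h => (hright t h).1 rfl
            exact (Joined.of_E hk ht (E.wt k hkm)).trans (hRt ht)
          · have hklt : k.val + 1 < m := by have := k.isLt; omega
            have hk' : (w (⟨k.val + 1, hklt⟩ : Fin m) : Vtx β q m) ∉ X := fun h =>
              ((hright _ h).2 ⟨k.val + 1, hklt⟩ rfl).1 rfl
            have hl' : (u (⟨(k.val + 1) * q + q, block_lt hklt le_rfl⟩ :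
                Fin (m * q + 1)) : Vtx β q m) ∉ X := fun h =>
              ((hright _ h).2 ⟨k.val + 1, hklt⟩ rfl).2 _ rfl rfl
            have h1 := hw1 ⟨k.val + 1, hklt⟩ hk' _ hl' (by simp) (by simp)
            exact (Joined.of_E hk hk' (E.ww _ _ rfl)).trans h1
      · -- `tau` survives
        have hwt : Joined X (w k) tau := Joined.of_E hk htau (E.wtau k)
        by_cases hs : (s : Vtx β q m) ∈ X
        · by_cases ht : (t : Vtx β q m) ∈ X
          · -- another `w`
            obtain ⟨k', hkk'⟩ : ∃ k' : Fin m, k' ≠ k := by
              by_cases h0 : k.val = 0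
              · exact ⟨⟨1, by omega⟩, fun h => by rw [← h] at h0; simp at h0⟩
              · exact ⟨⟨0, by omega⟩, fun h => h0 (by rw [← h])⟩
            have hk' : (w k' : Vtx β q m) ∉ X := by
              intro h
              exact hthree s t (w k') (fun l _ _ h => by cases h) (fun l _ _ h => by cases h)
                (fun l _ _ h => by cases h) (fun y h => by cases h) (fun y h => by cases h)
                (fun y h => by cases h) (fun h => by cases h) (fun h => by cases h)
                (fun h => by cases h) hs ht h
            rcases lt_or_gt_of_ne (fun h => hkk' (Fin.ext h) : k'.val ≠ k.val) with hlt | hgt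
            · have hmul : (k'.val + 1) * q ≤ k.val * q := Nat.mul_le_mul_right _ hlt
              have hmul' : (k'.val + 1) * q = k'.val * q + q := by ring
              have hl : (u (⟨k'.val * q, by
                  have := block_lt (q := q) (i := 0) k'.isLt (by omega)
                  omega⟩ : Fin (m * q + 1)) : Vtx β q m) ∉ X := by
                intro h
                refine hthree s t _ (fun l _ _ h => by cases h) (fun l _ _ h => by cases h)
                  ?_ (fun y h => by cases h) (fun y h => by cases h)
                  (fun y h => by cases h) (fun h => by cases h) (fun h => by cases h)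
                  (fun h => by cases h) hs ht h
                intro l h1 h2 h3
                cases h3
                simp only at h1
                omega
              have h1 := hw1 k' hk' _ hl (by simp) (by simp)
              exact hwt.trans ((Joined.of_E hk' htau (E.wtau k')).symm.trans h1)
            · have hmul : (k.val + 1) * q ≤ k'.val * q := Nat.mul_le_mul_right _ hgt
              have hmul' : (k.val + 1) * q = k.val * q + q := by ring
              have hl : (u (⟨k'.val * q + q, block_lt k'.isLt le_rfl⟩ :
                  Fin (m * q + 1)) : Vtx β q m) ∉ X := by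
                intro h
                refine hthree s t _ (fun l _ _ h => by cases h) (fun l _ _ h => by cases h)
                  ?_ (fun y h => by cases h) (fun y h => by cases h)
                  (fun y h => by cases h) (fun h => by cases h) (fun h => by cases h)
                  (fun h => by cases h) hs ht h
                intro l h1 h2 h3
                cases h3
                simp only at h2
                omega
              have h1 := hw1 k' hk' _ hl (by simp) (by simp)
              exact hwt.trans ((Joined.of_E hk' htau (E.wtau k')).symm.trans h1)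
          · exact hwt.trans ((Joined.of_E ht htau E.ttau).symm.trans (hRt ht))
        · exact hwt.trans ((Joined.of_E hs htau E.stau).symm.trans (hRs hs))
    refine connected_of_center (R i₀) hi₀ ?_
    intro v hv
    cases v with
    | s => exact hRs hv
    | t => exact hRt hv
    | R i =>
        by_cases hii : i = i₀
        · rw [hii]
          exact Joined.refl hi₀
        · exact Joined.of_E hv hi₀ (E.RR i i₀ hii)
    | u l => exact hRu l hv
    | w k => exact hw k hv
    | x y => exact absurd (hx y) hv
    | tau =>
        by_cases hs : (s : Vtx β q m) ∈ X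
        · by_cases ht : (t : Vtx β q m) ∈ X
          · -- some `w` survives
            have : ∃ k, (w k : Vtx β q m) ∉ X := by
              by_contra hcon
              push Not at hcon
              have h1 : ((Finset.univ : Finset (Fin (q + 1))).image
                  (fun i => (w ⟨i.val, by omega⟩ : Vtx β q m))).card = q + 1 := by
                rw [Finset.card_image_of_injective, Finset.card_univ, Fintype.card_fin]
                intro i i' h
                simp only [w.injEq, Fin.mk.injEq] at h
                exact Fin.ext h
              refine three_out hX hx h1 ?_ ?_ (a := s) (b := t)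
                (c := w ⟨q + 1, by omega⟩) ?_ ?_ ?_ (fun y h => by cases h)
                (fun y h => by cases h) (fun y h => by cases h) (fun h => by cases h)
                (fun h => by cases h) (fun h => by cases h) hs ht (hcon _)
              · intro y
                simp
              · intro v hv
                simp only [Finset.mem_image, Finset.mem_univ, true_and] at hv
                obtain ⟨i, rfl⟩ := hv
                exact hcon _
              · simp
              · simp
              · simp only [Finset.mem_image, Finset.mem_univ, true_and, w.injEq, Fin.mk.injEq,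
                  not_exists]
                intro i hi
                omega
            obtain ⟨k, hk⟩ := this
            exact (Joined.of_E hk hv (E.wtau k)).symm.trans (hw k hk)
          · exact (Joined.of_E ht hv E.ttau).symm.trans (hRt ht)
        · exact (Joined.of_E hs hv E.stau).symm.trans (hRs hs)
  · -- `R` is deleted
    push Not at hR
    have hthree : ∀ a b c : Vtx β q m, (∀ i, a ≠ R i) → (∀ i, b ≠ R i) → (∀ i, c ≠ R i) →
        (∀ y, a ≠ x y) → (∀ y, b ≠ x y) → (∀ y, c ≠ x y) →
        a ≠ b → a ≠ c → b ≠ c → a ∈ X → b ∈ X → c ∈ X → False := by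
      intro a b c ha hb hc hax hbx hcx hab hac hbc
      refine three_out hX hx (Rset_card (β := β) (q := q) (m := m)) ?_ ?_ ?_ ?_ ?_
        hax hbx hcx hab hac hbc
      · intro y
        simp
      · intro v hv
        simp only [Finset.mem_image, Finset.mem_univ, true_and] at hv
        obtain ⟨i, rfl⟩ := hv
        exact hR i
      · simp only [Finset.mem_image, Finset.mem_univ, true_and, not_exists]
        exact fun i hi => ha i hi.symm
      · simp only [Finset.mem_image, Finset.mem_univ, true_and, not_exists]
        exact fun i hi => hb i hi.symm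
      · simp only [Finset.mem_image, Finset.mem_univ, true_and, not_exists]
        exact fun i hi => hc i hi.symm
    by_cases htau : (tau : Vtx β q m) ∈ X
    · -- at most one more vertex is deleted
      have htwo : ∀ a b : Vtx β q m, a ∈ X → b ∈ X → (∀ i, a ≠ R i) → (∀ i, b ≠ R i) →
          (∀ y, a ≠ x y) → (∀ y, b ≠ x y) → a ≠ tau → b ≠ tau → a = b := by
        intro a b ha hb haR hbR hax hbx hat hbt
        by_contra hab
        exact hthree a b tau haR hbR (fun i h => by cases h) hax hbx (fun y h => by cases h)
          hab hat hbt ha hb htau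
      by_cases hs : (s : Vtx β q m) ∈ X
      · have hall : ∀ a : Vtx β q m, (∀ i, a ≠ R i) → (∀ y, a ≠ x y) → a ≠ tau → a ≠ s →
            a ∉ X := by
          intro a haR hax hat has ha
          exact has (htwo a s ha hs haR (fun i h => by cases h) hax (fun y h => by cases h) hat
            (fun h => by cases h))
        have ht : (t : Vtx β q m) ∉ X := hall t (fun i h => by cases h) (fun y h => by cases h)
          (fun h => by cases h) (fun h => by cases h)
        have hu : ∀ l, (u l : Vtx β q m) ∉ X := fun l => hall _ (fun i h => by cases h)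
          (fun y h => by cases h) (fun h => by cases h) (fun h => by cases h)
        have hw : ∀ l, (w l : Vtx β q m) ∉ X := fun l => hall _ (fun i h => by cases h)
          (fun y h => by cases h) (fun h => by cases h) (fun h => by cases h)
        refine connected_of_center t ht ?_
        intro v hv
        cases v with
        | s => exact absurd hs hv
        | t => exact Joined.refl ht
        | R i => exact absurd (hR i) hv
        | u l => exact u_right ht (m * q - l.val) l.val l.isLt (by omega) (fun l _ => hu l)
        | w k => exact w_right ht (m - 1 - k.val) k.val k.isLt (by omega) (fun l _ => hw l)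
        | x y => exact absurd (hx y) hv
        | tau => exact absurd htau hv
      · -- `s` survives
        by_cases ht : (t : Vtx β q m) ∈ X
        · have hall : ∀ a : Vtx β q m, (∀ i, a ≠ R i) → (∀ y, a ≠ x y) → a ≠ tau → a ≠ t →
              a ∉ X := by
            intro a haR hax hat has ha
            exact has (htwo a t ha ht haR (fun i h => by cases h) hax (fun y h => by cases h) hat
              (fun h => by cases h))
          have hu : ∀ l, (u l : Vtx β q m) ∉ X := fun l => hall _ (fun i h => by cases h)
            (fun y h => by cases h) (fun h => by cases h) (fun h => by cases h)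
          have hw : ∀ l, (w l : Vtx β q m) ∉ X := fun l => hall _ (fun i h => by cases h)
            (fun y h => by cases h) (fun h => by cases h) (fun h => by cases h)
          refine connected_of_center s hs ?_
          intro v hv
          cases v with
          | s => exact Joined.refl hs
          | t => exact absurd ht hv
          | R i => exact absurd (hR i) hv
          | u l => exact u_left hs l.val l.isLt (fun l _ => hu l)
          | w k => exact w_left hs k.val k.isLt (fun l _ => hw l)
          | x y => exact absurd (hx y) hv
          | tau => exact absurd htau hv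
        · -- both `s` and `t` survive, at most one `u` or `w` is deleted
          have hst : Joined X s t := by
            by_cases hu : ∀ l, (u l : Vtx β q m) ∉ X
            · exact (u_left hs (m * q) (by omega) (fun l _ => hu l)).symm.trans
                (u_right ht 0 (m * q) (by omega) (by omega) (fun l _ => hu l))
            · push Not at hu
              obtain ⟨l, hl⟩ := hu
              have hw : ∀ k, (w k : Vtx β q m) ∉ X := by
                intro k hk
                have := htwo _ _ hk hl (fun i h => by cases h) (fun i h => by cases h)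
                  (fun y h => by cases h) (fun y h => by cases h) (fun h => by cases h)
                  (fun h => by cases h)
                cases this
              exact (w_left hs (m - 1) (by omega) (fun l _ => hw l)).symm.trans
                (w_right ht 0 (m - 1) (by omega) (by omega) (fun l _ => hw l))
          refine connected_of_center s hs ?_
          intro v hv
          cases v with
          | s => exact Joined.refl hs
          | t => exact hst.symm
          | R i => exact absurd (hR i) hv
          | u l =>
              by_cases hl : ∀ l' : Fin (m * q + 1), l'.val ≤ l.val → (u l' : Vtx β q m) ∉ X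
              · exact u_left hs l.val l.isLt hl
              · push Not at hl
                obtain ⟨l', hl', hl'X⟩ := hl
                have hne : l' ≠ l := fun h => hv (h ▸ hl'X)
                refine (u_right ht (m * q - l.val) l.val l.isLt (by omega) ?_).trans hst.symm
                intro l'' hl'' hcon
                have := htwo _ _ hcon hl'X (fun i h => by cases h) (fun i h => by cases h)
                  (fun y h => by cases h) (fun y h => by cases h) (fun h => by cases h)
                  (fun h => by cases h)
                simp only [u.injEq] at this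
                rw [this] at hl''
                exact hne (Fin.ext (le_antisymm hl' hl''))
          | w k =>
              by_cases hl : ∀ l' : Fin m, l'.val ≤ k.val → (w l' : Vtx β q m) ∉ X
              · exact w_left hs k.val k.isLt hl
              · push Not at hl
                obtain ⟨l', hl', hl'X⟩ := hl
                have hne : l' ≠ k := fun h => hv (h ▸ hl'X)
                refine (w_right ht (m - 1 - k.val) k.val k.isLt (by omega) ?_).trans hst.symm
                intro l'' hl'' hcon
                have := htwo _ _ hcon hl'X (fun i h => by cases h) (fun i h => by cases h)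
                  (fun y h => by cases h) (fun y h => by cases h) (fun h => by cases h)
                  (fun h => by cases h)
                simp only [w.injEq] at this
                rw [this] at hl''
                exact hne (Fin.ext (le_antisymm hl' hl''))
          | x y => exact absurd (hx y) hv
          | tau => exact absurd htau hv
    · -- `tau` survives
      refine connected_of_center tau htau ?_
      intro v hv
      cases v with
      | s => exact Joined.of_E hv htau E.stau
      | t => exact Joined.of_E hv htau E.ttau
      | R i => exact absurd (hR i) hv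
      | tau => exact Joined.refl hv
      | w k => exact Joined.of_E hv htau (E.wtau k)
      | x y => exact absurd (hx y) hv
      | u l =>
          -- the block of `l`
          obtain ⟨k, hk1, hk2⟩ : ∃ k : Fin m, k.val * q ≤ l.val ∧ l.val ≤ k.val * q + q := by
            by_cases hl : l.val = m * q
            · refine ⟨⟨m - 1, by omega⟩, ?_, ?_⟩
              · simp only
                rw [hl]
                exact Nat.mul_le_mul_right _ (by omega)
              · simp only
                rw [hl]
                have : (m - 1 + 1) * q = (m - 1) * q + q := by ring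
                rw [Nat.sub_add_cancel (by omega)] at this
                omega
            · have hlt : l.val / q < m := by
                rw [Nat.div_lt_iff_lt_mul (by omega)]
                have := l.isLt
                omega
              refine ⟨⟨l.val / q, hlt⟩, Nat.div_mul_le_self _ _, ?_⟩
              simp only
              have h1 := Nat.div_add_mod l.val q
              have h2 := Nat.mod_lt l.val (show 0 < q by omega)
              rw [mul_comm] at h1
              omega
          by_cases hwk : (w k : Vtx β q m) ∈ X
          · by_cases hleft : (s : Vtx β q m) ∉ X ∧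
                ∀ l' : Fin (m * q + 1), l'.val ≤ l.val → (u l' : Vtx β q m) ∉ X
            · exact (u_left hleft.1 l.val l.isLt hleft.2).trans
                (Joined.of_E hleft.1 htau E.stau)
            · by_cases hright : (t : Vtx β q m) ∉ X ∧
                  ∀ l' : Fin (m * q + 1), l.val ≤ l'.val → (u l' : Vtx β q m) ∉ X
              · exact (u_right hright.1 (m * q - l.val) l.val l.isLt (by omega)
                  hright.2).trans (Joined.of_E hright.1 htau E.ttau)
              · exfalso
                obtain ⟨z, hz, hz'⟩ : ∃ z : Vtx β q m, z ∈ X ∧ (z = s ∨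
                    ∃ l' : Fin (m * q + 1), l'.val ≤ l.val ∧ z = u l') := by
                  by_contra hcon
                  push Not at hcon
                  exact hleft ⟨fun h => (hcon _ h).1 rfl,
                    fun l' hl' h => (hcon _ h).2 l' hl' rfl⟩
                obtain ⟨z', hz1, hz1'⟩ : ∃ z : Vtx β q m, z ∈ X ∧ (z = t ∨
                    ∃ l' : Fin (m * q + 1), l.val ≤ l'.val ∧ z = u l') := by
                  by_contra hcon
                  push Not at hcon
                  exact hright ⟨fun h => (hcon _ h).1 rfl,
                    fun l' hl' h => (hcon _ h).2 l' hl' rfl⟩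
                refine hthree (w k) z z' (fun i h => by cases h) ?_ ?_
                  (fun y h => by cases h) ?_ ?_ ?_ ?_ ?_ hwk hz hz1
                · rintro i rfl
                  rcases hz' with h | ⟨l', hl', h⟩ <;> cases h
                · rintro i rfl
                  rcases hz1' with h | ⟨l', hl', h⟩ <;> cases h
                · rintro i rfl
                  rcases hz' with h | ⟨l', hl', h⟩ <;> cases h
                · rintro i rfl
                  rcases hz1' with h | ⟨l', hl', h⟩ <;> cases h
                · rintro rfl
                  rcases hz' with h | ⟨l', hl', h⟩ <;> cases h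
                · rintro rfl
                  rcases hz1' with h | ⟨l', hl', h⟩ <;> cases h
                · rintro rfl
                  rcases hz' with rfl | ⟨l', hl', rfl⟩
                  · rcases hz1' with h | ⟨l', hl', h⟩ <;> cases h
                  · rcases hz1' with h | ⟨l'', hl'', h⟩
                    · cases h
                    · cases h
                      have : l' = l := Fin.ext (le_antisymm hl' hl'')
                      subst this
                      exact hv hz
          · exact (Joined.of_E hv hwk (E.uw l k hk1 hk2)).trans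
              (Joined.of_E hwk htau (E.wtau k))

end Connectivity

/-- In a connected subgraph, an edge leaves every vertex set that meets it but does not cover
it. -/
theorem exists_crossing {V : Type} {H : SimpleGraph V} (F : H.Subgraph) (hF : F.Connected)
    (P : Set V) {a b : V} (ha : a ∈ F.verts) (hb : b ∈ F.verts) (haP : a ∈ P) (hbP : b ∉ P) :
    ∃ v v', v ∈ F.verts ∧ v' ∈ F.verts ∧ H.Adj v v' ∧ v ∈ P ∧ v' ∉ P := by
  obtain ⟨p⟩ := hF.preconnected.coe ⟨a, ha⟩ ⟨b, hb⟩
  obtain ⟨d, -, h1, h2⟩ := p.exists_boundary_dart {v | v.1 ∈ P} haP hbP
  exact ⟨d.fst.1, d.snd.1, d.fst.2, d.snd.2, F.adj_sub d.adj, h1, h2⟩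

/-- The example has no two disjoint connected subgraphs, one containing `s` and `t` and the other
containing `R` and `tau`, both avoiding the universal vertices. -/
theorem not_linked {β : Type} {q m : ℕ} (F₁ F₂ : (G β q m).Subgraph) (h₁ : F₁.Connected)
    (h₂ : F₂.Connected) (hdisj : Disjoint F₁.verts F₂.verts)
    (hs : s ∈ F₁.verts) (ht : t ∈ F₁.verts) (hR : ∀ i, R i ∈ F₂.verts) (htau : tau ∈ F₂.verts)
    (hx₁ : ∀ y, x y ∉ F₁.verts) (hx₂ : ∀ y, x y ∉ F₂.verts) : False := by
  have hd : ∀ v, v ∈ F₁.verts → v ∉ F₂.verts := fun v h h' =>
    Set.disjoint_left.1 hdisj h h'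
  -- `F₁` meets every pair `u l`, `w k` of neighbours
  have hmeet : ∀ (l : Fin (m * q + 1)) (k : Fin m), k.val * q ≤ l.val → l.val ≤ k.val * q + q →
      (u l : Vtx β q m) ∈ F₁.verts ∨ (w k : Vtx β q m) ∈ F₁.verts := by
    intro l k h1 h2
    by_contra hcon
    push Not at hcon
    obtain ⟨hu, hw⟩ := hcon
    obtain ⟨v, v', hv, hv', hadj, hP, hP'⟩ := exists_crossing F₁ h₁
      {v : Vtx β q m | v = s ∨ (∃ l' : Fin (m * q + 1), l'.val < l.val ∧ v = u l') ∨
        (∃ k' : Fin m, k'.val < k.val ∧ v = w k')} hs ht (Or.inl rfl)
      (by
        rintro (h | ⟨l', _, h⟩ | ⟨k', _, h⟩) <;> cases h)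
    simp only [Set.mem_ofPred_eq, not_or, not_exists, not_and] at hP hP'
    obtain ⟨g1, g2, g3⟩ := hP'
    rcases hP with rfl | ⟨l', hl', rfl⟩ | ⟨k', hk', rfl⟩
    · rcases hadj with h | h
      · cases h with
        | sR i => exact hd _ hv' (hR i)
        | stau => exact hd _ hv' htau
        | su l' h =>
            rcases Nat.lt_or_ge l'.val l.val with h3 | h3
            · exact g2 l' h3 rfl
            · have : l' = l := Fin.ext (by omega)
              exact hu (this ▸ hv')
        | sw k' h =>
            rcases Nat.lt_or_ge k'.val k.val with h3 | h3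
            · exact g3 k' h3 rfl
            · have : k' = k := Fin.ext (by omega)
              exact hw (this ▸ hv')
      · cases h with
        | univ y v h => exact hx₁ _ hv'
    · rcases hadj with h | h
      · cases h with
        | uR i l => exact hd _ hv' (hR i)
        | ut l' h =>
            have := l.isLt
            omega
        | uu l' l'' h =>
            rcases Nat.lt_or_ge l''.val l.val with h3 | h3
            · exact g2 l'' h3 rfl
            · have : l'' = l := Fin.ext (by omega)
              exact hu (this ▸ hv')
        | uw l' k' h3 h4 =>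
            rcases lt_trichotomy k'.val k.val with h5 | h5 | h5
            · exact g3 k' h5 rfl
            · have : k' = k := Fin.ext h5
              exact hw (this ▸ hv')
            · have : (k.val + 1) * q ≤ k'.val * q := Nat.mul_le_mul_right _ h5
              have h6 : (k.val + 1) * q = k.val * q + q := by ring
              omega
      · cases h with
        | univ y v h => exact hx₁ _ hv'
        | su l' h => exact g1 rfl
        | uu l'' l' h => exact g2 l'' (by omega) rfl
    · rcases hadj with h | h
      · cases h with
        | wtau k => exact hd _ hv' htau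
        | wt k' h =>
            have := k.isLt
            omega
        | ww k' k'' h =>
            rcases Nat.lt_or_ge k''.val k.val with h3 | h3
            · exact g3 k'' h3 rfl
            · have : k'' = k := Fin.ext (by omega)
              exact hw (this ▸ hv')
      · cases h with
        | univ y v h => exact hx₁ _ hv'
        | sw k' h => exact g1 rfl
        | ww k'' k' h => exact g3 k'' (by omega) rfl
        | uw l' k' h3 h4 =>
            rcases lt_trichotomy l'.val l.val with h5 | h5 | h5
            · exact g2 l' h5 rfl
            · have : l' = l := Fin.ext h5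
              exact hu (this ▸ hv')
            · have : (k'.val + 1) * q ≤ k.val * q := Nat.mul_le_mul_right _ hk'
              have h6 : (k'.val + 1) * q = k'.val * q + q := by ring
              omega
  -- `F₂` crosses between `R ∪ u` and the rest
  obtain ⟨v, v', hv, hv', hadj, hP, hP'⟩ := exists_crossing F₂ h₂
    {v : Vtx β q m | (∃ i, v = R i) ∨ (∃ l, v = u l)} (hR 0) htau (Or.inl ⟨0, rfl⟩)
    (by
      rintro (⟨i, h⟩ | ⟨l, h⟩) <;> cases h)
  simp only [Set.mem_ofPred_eq, not_or, not_exists] at hP hP'
  obtain ⟨g1, g2⟩ := hP'
  rcases hP with ⟨i, rfl⟩ | ⟨l, rfl⟩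
  · rcases hadj with h | h
    · cases h with
      | RR i i' h => exact g1 _ rfl
    · cases h with
      | univ y v h => exact hx₂ _ hv'
      | RR i i' h => exact g1 _ rfl
      | sR i => exact hd _ hs hv'
      | tR i => exact hd _ ht hv'
      | uR i l => exact g2 _ rfl
  · rcases hadj with h | h
    · cases h with
      | uR i l => exact g1 _ rfl
      | ut l h => exact hd _ ht hv'
      | uu l l' h => exact g2 _ rfl
      | uw l k h1 h2 =>
          rcases hmeet l k h1 h2 with h3 | h3
          · exact hd _ h3 hv
          · exact hd _ h3 hv'
    · cases h with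
      | univ y v h => exact hx₂ _ hv'
      | su l h => exact hd _ hs hv'
      | uu l' l h => exact g2 _ rfl

/-- Main theorem.  Let `s₁, …, s_k` be given and let `a ≠ b` be two indices with `s_a ≥ 2` and
`s_b ≥ 3`.  Then some graph with at least `s₁ + ⋯ + s_k` vertices is
`(s_b + 2 + ∑_{i ≠ a, b} s_i)`-connected but not `(s₁, …, s_k)`-linked. -/
theorem result {k : ℕ} (σ : Fin k → ℕ) (a b : Fin k) (hab : a ≠ b) (ha : 2 ≤ σ a)
    (hb : 3 ≤ σ b) :
    ∃ (V : Type) (_ : Fintype V) (H : SimpleGraph V),
      ∑ i, σ i ≤ Fintype.card V ∧
      IsVertexConnected H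
        (σ b + 2 + ∑ i ∈ Finset.univ.filter (fun i => i ≠ a ∧ i ≠ b), σ i) ∧
      ¬ IsLinked H σ := by
  classical
  let β : Type := Σ i : {i : Fin k // i ≠ a ∧ i ≠ b}, Fin (σ i.1)
  obtain ⟨q, hq⟩ : ∃ q, σ b = q + 2 := ⟨σ b - 2, by omega⟩
  obtain ⟨e, he⟩ : ∃ e, σ a = e + 2 := ⟨σ a - 2, by omega⟩
  let m : ℕ := q + 2 + e
  have hβ : Fintype.card β = ∑ i ∈ Finset.univ.filter (fun i => i ≠ a ∧ i ≠ b), σ i := by
    rw [Fintype.card_sigma]
    simp only [Fintype.card_fin]
    symm
    exact Finset.sum_subtype _ (by simp) _
  -- the prescribed sets
  let S : Fin k → Finset (Vtx β q m) := fun i =>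
    if hia : i = a then
      {s, t} ∪ (Finset.univ : Finset (Fin e)).image (fun c => w ⟨c.val, by omega⟩)
    else if hib : i = b then
      insert tau ((Finset.univ : Finset (Fin (q + 1))).image R)
    else (Finset.univ : Finset (Fin (σ i))).image (fun c => x ⟨⟨i, hia, hib⟩, c⟩)
  have hSa : S a = {s, t} ∪ (Finset.univ : Finset (Fin e)).image
      (fun c => (w ⟨c.val, by omega⟩ : Vtx β q m)) := by
    simp only [S, dif_pos]
  have hSb : S b = insert tau ((Finset.univ : Finset (Fin (q + 1))).image R) := by
    simp only [S, dif_neg hab.symm, dif_pos]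
  have hSi : ∀ i (hia : i ≠ a) (hib : i ≠ b), S i =
      (Finset.univ : Finset (Fin (σ i))).image
        (fun c => (x ⟨⟨i, hia, hib⟩, c⟩ : Vtx β q m)) := by
    intro i hia hib
    simp only [S, dif_neg hia, dif_neg hib]
  have hcard : ∀ i, (S i).card = σ i := by
    intro i
    by_cases hia : i = a
    · subst hia
      rw [hSa, Finset.card_union_of_disjoint, Finset.card_image_of_injective, Finset.card_univ,
        Fintype.card_fin, Finset.card_pair, he]
      · ring
      · intro h
        cases h
      · intro c c' h
        simp only [w.injEq, Fin.mk.injEq] at h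
        exact Fin.ext h
      · rw [Finset.disjoint_right]
        intro v hv
        simp only [Finset.mem_image, Finset.mem_univ, true_and] at hv
        obtain ⟨c, rfl⟩ := hv
        simp
    by_cases hib : i = b
    · subst hib
      rw [hSb, Finset.card_insert_of_notMem, Rset_card, hq]
      simp
    · rw [hSi i hia hib, Finset.card_image_of_injective, Finset.card_univ, Fintype.card_fin]
      intro c c' h
      exact eq_of_heq (Sigma.mk.inj (Vtx.x.inj h)).2
  -- labels
  let lab : Vtx β q m → Option (Fin k) := fun v => match v with
    | s => some a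
    | t => some a
    | tau => some b
    | R _ => some b
    | u _ => none
    | w _ => some a
    | x y => some y.1.1
  have hlab : ∀ i, ∀ v ∈ S i, lab v = some i := by
    intro i v hv
    by_cases hia : i = a
    · subst hia
      rw [hSa] at hv
      simp only [Finset.mem_union, Finset.mem_insert, Finset.mem_singleton, Finset.mem_image,
        Finset.mem_univ, true_and] at hv
      rcases hv with (rfl | rfl) | ⟨c, rfl⟩ <;> rfl
    by_cases hib : i = b
    · subst hib
      rw [hSb] at hv
      simp only [Finset.mem_insert, Finset.mem_image, Finset.mem_univ, true_and] at hv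
      rcases hv with rfl | ⟨c, rfl⟩ <;> rfl
    · rw [hSi i hia hib] at hv
      simp only [Finset.mem_image, Finset.mem_univ, true_and] at hv
      obtain ⟨c, rfl⟩ := hv
      rfl
  have hdisj : ∀ i i', i ≠ i' → Disjoint (S i) (S i') := by
    intro i i' hii
    rw [Finset.disjoint_left]
    intro v hv hv'
    have h1 := hlab i v hv
    have h2 := hlab i' v hv'
    rw [h1] at h2
    exact hii (Option.some.inj h2)
  refine ⟨Vtx β q m, inferInstance, G β q m, ?_, ?_, ?_⟩
  · have h1 : (Finset.univ.biUnion S).card = ∑ i, (S i).card :=
      Finset.card_biUnion (fun i _ i' _ hii => hdisj i i' hii)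
    calc ∑ i, σ i = ∑ i, (S i).card := by simp only [hcard]
      _ = (Finset.univ.biUnion S).card := h1.symm
      _ ≤ Fintype.card (Vtx β q m) := Finset.card_le_univ _
  · have h1 := G_connected (β := β) (q := q) (m := m) (by omega) (by omega)
    rw [hβ] at h1
    have h2 : σ b + 2 = q + 4 := by omega
    rw [h2]
    exact h1
  · intro hlinked
    obtain ⟨F, hF, hSF, hFd⟩ := hlinked.2 S hcard hdisj
    have hxmem : ∀ y : β, ∀ j, j = a ∨ j = b → (x y : Vtx β q m) ∉ (F j).verts := by
      intro y j hj hmem
      have h1 : (x y : Vtx β q m) ∈ (F y.1.1).verts := by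
        apply hSF
        rw [hSi y.1.1 y.1.2.1 y.1.2.2]
        simp only [Finset.coe_image, Finset.coe_univ, Set.image_univ, Set.mem_range]
        exact ⟨y.2, rfl⟩
      have h2 : y.1.1 ≠ j := by
        rcases hj with rfl | rfl
        · exact y.1.2.1
        · exact y.1.2.2
      exact Set.disjoint_left.1 (hFd _ _ h2) h1 hmem
    refine not_linked (F a) (F b) (hF a) (hF b) (hFd a b hab) ?_ ?_ ?_ ?_
      (fun y => hxmem y a (Or.inl rfl)) (fun y => hxmem y b (Or.inr rfl))
    · apply hSF
      rw [hSa]
      simp
    · apply hSF
      rw [hSa]
      simp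
    · intro i
      apply hSF
      rw [hSb]
      simp
    · apply hSF
      rw [hSb]
      simp

end Pool.Agent.Results.MP_dd17fe_co.ConnectivityLowerBound
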