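import Pool.Agent.Lib.H15K.Sub

/-!
# The connectivity threshold for linking one large set in `K_{1,m}`-free graphs

Let `m ≥ 3`, let `s_a, s_b` be two sizes, all other sizes being `1`, and let
`max(s_a, s_b) ≥ 4m - 7`.  Then among graphs without induced star `K_{1,m}` the least connectivity
forcing `(s₁, …, s_k)`-linkedness is `s₁ + ⋯ + s_k - 1`, the trivial lower bound.
-/

namespace Pool.Agent.Results.MP_dd17fe_co.StarFreeThreshold

open Pool.Agent.Lib.H15K

/-- `G` is `r`-connected: it has more than `r` vertices, and it stays connected after deleting any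
set of fewer than `r` vertices. -/
def IsVertexConnected {V : Type} [Fintype V] (G : SimpleGraph V) (r : ℕ) : Prop :=
  r < Fintype.card V ∧ ∀ X : Finset V, X.card < r → (G.induce {v : V | v ∉ X}).Connected

/-- `G` is `(s₁, …, s_k)`-linked: it has at least `s₁ + ⋯ + s_k` vertices, and for all pairwise
disjoint vertex sets `S₁, …, S_k` with `|S_i| = s_i` there are pairwise vertex-disjoint connected
subgraphs `F₁, …, F_k` with `S_i ⊆ V(F_i)` for every `i`. -/
def IsLinked {V : Type} [Fintype V] (G : SimpleGraph V) {k : ℕ} (s : Fin k → ℕ) : Prop :=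
  ∑ i, s i ≤ Fintype.card V ∧
  ∀ S : Fin k → Finset V, (∀ i, (S i).card = s i) → (∀ i j, i ≠ j → Disjoint (S i) (S j)) →
    ∃ F : Fin k → G.Subgraph,
      (∀ i, (F i).Connected) ∧ (∀ i, (S i : Set V) ⊆ (F i).verts) ∧
      ∀ i j, i ≠ j → Disjoint (F i).verts (F j).verts

/-- `G` has no induced star `K_{1,m}`: no vertex has `m` pairwise nonadjacent neighbours. -/
def IsStarFree {V : Type} (G : SimpleGraph V) (m : ℕ) : Prop :=
  ¬ ∃ (v : V) (Y : Finset V), Y.card = m ∧ (∀ y ∈ Y, G.Adj v y) ∧
    ∀ x ∈ Y, ∀ y ∈ Y, ¬ G.Adj x y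

/-- Every `r`-connected `K_{1,m}`-free finite graph is `(s₁, …, s_k)`-linked. -/
def Forces (m : ℕ) {k : ℕ} (s : Fin k → ℕ) (r : ℕ) : Prop :=
  ∀ (V : Type) [Fintype V] (G : SimpleGraph V), IsStarFree G m → IsVertexConnected G r →
    IsLinked G s

section bridge

variable {V : Type} {G : SimpleGraph V}

theorem rin_of_reachable {A : Set V} {x y : A} (h : (G.induce A).Reachable x y) :
    RIn G A x y := by
  obtain ⟨p⟩ := h
  induction p with
  | nil => exact RIn.refl (Subtype.property _)
  | @cons u v w huv _ ih => exact (RIn.adj u.2 huv v.2).trans ih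

theorem reachable_of_rin {A : Set V} {x y : V} (h : RIn G A x y) :
    ∀ (hx : x ∈ A) (hy : y ∈ A), (G.induce A).Reachable ⟨x, hx⟩ ⟨y, hy⟩ := by
  obtain ⟨hxA, h⟩ := h
  induction h with
  | refl => exact fun hx hy => SimpleGraph.Reachable.refl _
  | @tail b c hb h ih =>
    intro hx hy
    have hbA : b ∈ A := by
      have : RIn G A x b := ⟨hxA, hb⟩
      exact this.right
    refine (ih hx hbA).trans (SimpleGraph.Adj.reachable ?_)
    exact h.1

theorem kc_of [Fintype V] {r : ℕ} (h : IsVertexConnected G r) : KC G r := by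
  classical
  refine ⟨by rw [Nat.card_eq_fintype_card]; exact h.1, fun X hX => ?_⟩
  have h1 := h.2 X.toFinset (by rwa [← Set.ncard_eq_toFinset_card'])
  have h2 : {v : V | v ∉ X.toFinset} = Xᶜ := by
    ext v
    simp
  rw [h2] at h1
  obtain ⟨⟨x, hx⟩⟩ := h1.nonempty
  refine ⟨⟨x, hx⟩, fun y hy z hz => ?_⟩
  exact rin_of_reachable (h1.preconnected ⟨y, hy⟩ ⟨z, hz⟩)

theorem connected_of_cn {A : Set V} (h : Cn G A) : ((⊤ : G.Subgraph).induce A).Connected := by
  rw [← SimpleGraph.connected_induce_iff]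
  obtain ⟨⟨x, hx⟩, h⟩ := h
  have : Nonempty A := ⟨⟨x, hx⟩⟩
  exact ⟨fun y z => reachable_of_rin (h y y.2 z z.2) y.2 z.2⟩

theorem sf_of [Finite V] {m : ℕ} (h : IsStarFree G m) : SF G m := by
  classical
  intro v Y hY hI
  by_contra hlt
  push Not at hlt
  obtain ⟨Z, hZY, hZ⟩ := Set.exists_subset_card_eq hlt
  refine h ⟨v, (Set.toFinite Z).toFinset, ?_, ?_, ?_⟩
  · rw [← Set.ncard_eq_toFinset_card Z]
    exact hZ
  · intro y hy
    exact hY y (hZY (by simpa using hy))
  · intro x hx y hy
    exact hI x (hZY (by simpa using hx)) y (hZY (by simpa using hy))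

/-- The general linking step: two sets, all others singletons. -/
theorem linked_of [Fintype V] {m k r i j : ℕ} (s : Fin k → ℕ) {a b : Fin k} (hab : a ≠ b)
    (hone : ∀ l, l ≠ a → l ≠ b → s l = 1) (hi : s a = i) (hj : s b = j) (hij : i + j ≤ r + 1)
    (hmain : ∀ (W : Type) [Finite W] (H : SimpleGraph W), KC H r → SF H m → ∀ S₁ S₂ : Set W,
      Disjoint S₁ S₂ → S₁.ncard = i → S₂.ncard = j → Lk H S₁ S₂)
    (hsf : IsStarFree G m) (hG : IsVertexConnected G (r + (k - 2))) : IsLinked G s := by
  classical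
  set R : Finset (Fin k) := (Finset.univ.erase a).erase b with hR
  have hRc : R.card = k - 2 := by
    rw [hR, Finset.card_erase_of_mem (Finset.mem_erase.2 ⟨hab.symm, Finset.mem_univ _⟩),
      Finset.card_erase_of_mem (Finset.mem_univ _), Finset.card_univ, Fintype.card_fin]
    omega
  have hk : 2 ≤ k := by
    have h1 := Finset.card_le_card (Finset.subset_univ ({a, b} : Finset (Fin k)))
    rwa [Finset.card_pair hab, Finset.card_univ, Fintype.card_fin] at h1
  have hmem : ∀ l, l ∈ R ↔ l ≠ a ∧ l ≠ b := by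
    intro l
    rw [hR]
    simp only [Finset.mem_erase, Finset.mem_univ, and_true]
    tauto
  have hsum : ∑ l, s l = i + j + (k - 2) := by
    have h1 : ∑ l, s l = s a + ∑ l ∈ Finset.univ.erase a, s l :=
      (Finset.add_sum_erase _ _ (Finset.mem_univ a)).symm
    have h2 : ∑ l ∈ Finset.univ.erase a, s l = s b + ∑ l ∈ R, s l :=
      (Finset.add_sum_erase _ _ (Finset.mem_erase.2 ⟨hab.symm, Finset.mem_univ _⟩)).symm
    have h3 : ∑ l ∈ R, s l = k - 2 := by
      rw [Finset.sum_congr rfl (fun l hl => hone l ((hmem l).1 hl).1 ((hmem l).1 hl).2)]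
      simp [hRc]
    omega
  have hG1 := hG.1
  refine ⟨by omega, fun S hS hdis => ?_⟩
  set Z : Set V := {v | ∃ l ∈ R, v ∈ S l} with hZ
  have hZfin : Z = ((R.biUnion S : Finset V) : Set V) := by
    ext v
    simp [hZ]
  have hZc : Z.ncard = k - 2 := by
    rw [hZfin, Set.ncard_coe_finset, Finset.card_biUnion (fun x _ y _ hxy => hdis x y hxy),
      Finset.sum_congr rfl (fun l hl => (hS l).trans (hone l ((hmem l).1 hl).1 ((hmem l).1 hl).2))]
    simp [hRc]
  have hdS : ∀ l l', l ≠ l' → Disjoint (S l : Set V) (S l' : Set V) := fun l l' h =>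
    Finset.disjoint_coe.2 (hdis l l' h)
  have hdZ : ∀ l, l ∉ R → Disjoint (S l : Set V) Z := by
    intro l hl
    rw [Set.disjoint_left]
    rintro v hv ⟨l', hl', hv'⟩
    have hne : l ≠ l' := fun h => hl (h ▸ hl')
    exact Set.disjoint_left.1 (hdS l l' hne) hv hv'
  have haR : a ∉ R := fun h => ((hmem a).1 h).1 rfl
  have hbR : b ∉ R := fun h => ((hmem b).1 h).2 rfl
  obtain ⟨F₁, F₂, g1, g2, g3, g4, g5, g6, g7⟩ := sub_lk (Z := Z) (S₁ := (S a : Set V))
    (S₂ := (S b : Set V)) hmain (by rw [hZc]; exact kc_of hG) (sf_of hsf) (hdS a b hab)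
    (by rw [Set.ncard_coe_finset, hS a, hi]) (by rw [Set.ncard_coe_finset, hS b, hj])
    (hdZ a haR) (hdZ b hbR)
  let F : Fin k → Set V := fun l => if l = a then F₁ else if l = b then F₂ else (S l : Set V)
  have hFa : F a = F₁ := if_pos rfl
  have hFb : F b = F₂ := by
    show (if b = a then F₁ else if b = b then F₂ else (S b : Set V)) = F₂
    rw [if_neg hab.symm, if_pos rfl]
  have hFl : ∀ l, l ≠ a → l ≠ b → F l = (S l : Set V) := by
    intro l h1 h2
    show (if l = a then F₁ else if l = b then F₂ else (S l : Set V)) = _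
    rw [if_neg h1, if_neg h2]
  have hcn : ∀ l, Cn G (F l) := by
    intro l
    by_cases h1 : l = a
    · rw [h1, hFa]; exact g6
    by_cases h2 : l = b
    · rw [h2, hFb]; exact g7
    rw [hFl l h1 h2]
    obtain ⟨x, hx⟩ := Finset.card_eq_one.1 ((hS l).trans (hone l h1 h2))
    rw [hx, Finset.coe_singleton]
    exact cn_singleton x
  have hsub : ∀ l, (S l : Set V) ⊆ F l := by
    intro l
    by_cases h1 : l = a
    · rw [h1, hFa]; exact g1
    by_cases h2 : l = b
    · rw [h2, hFb]; exact g2
    rw [hFl l h1 h2]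
  have hSZ : ∀ l, l ≠ a → l ≠ b → (S l : Set V) ⊆ Z := fun l h1 h2 v hv =>
    ⟨l, (hmem l).2 ⟨h1, h2⟩, hv⟩
  have hdF : ∀ l l', l ≠ l' → Disjoint (F l) (F l') := by
    intro l l' hne
    by_cases h1 : l = a
    · by_cases h2 : l' = b
      · rw [h1, h2, hFa, hFb]; exact g3
      · have h3 : l' ≠ a := fun h => hne (h1.trans h.symm)
        rw [h1, hFa, hFl l' h3 h2]
        exact g4.mono_right (hSZ l' h3 h2)
    · by_cases h1' : l = b
      · by_cases h2 : l' = a
        · rw [h1', h2, hFa, hFb]; exact g3.symm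
        · have h3 : l' ≠ b := fun h => hne (h1'.trans h.symm)
          rw [h1', hFb, hFl l' h2 h3]
          exact g5.mono_right (hSZ l' h2 h3)
      · rw [hFl l h1 h1']
        by_cases h2 : l' = a
        · rw [h2, hFa]
          exact (g4.mono_right (hSZ l h1 h1')).symm
        · by_cases h3 : l' = b
          · rw [h3, hFb]
            exact (g5.mono_right (hSZ l h1 h1')).symm
          · rw [hFl l' h2 h3]
            exact hdS l l' hne
  refine ⟨fun l => (⊤ : G.Subgraph).induce (F l), fun l => connected_of_cn (hcn l),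
    fun l => ?_, fun l l' hne => ?_⟩
  · rw [SimpleGraph.Subgraph.induce_verts]
    exact hsub l
  · rw [SimpleGraph.Subgraph.induce_verts, SimpleGraph.Subgraph.induce_verts]
    exact hdF l l' hne

end bridge

/-- Complete graphs: `r`-connected for `r` below the number of vertices. -/
theorem top_connected {n r : ℕ} (h : r < n) : IsVertexConnected (⊤ : SimpleGraph (Fin n)) r := by
  classical
  refine ⟨by rw [Fintype.card_fin]; exact h, fun X hX => ?_⟩
  have hne : ∃ x, x ∉ X := by
    by_contra hno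
    push Not at hno
    have h1 : X = Finset.univ := Finset.eq_univ_iff_forall.2 hno
    rw [h1, Finset.card_univ, Fintype.card_fin] at hX
    omega
  obtain ⟨x, hx⟩ := hne
  have : Nonempty {v : Fin n | v ∉ X} := ⟨⟨x, hx⟩⟩
  refine ⟨fun y z => ?_⟩
  by_cases hyz : y = z
  · rw [hyz]
  · refine SimpleGraph.Adj.reachable ?_
    show (⊤ : SimpleGraph (Fin n)).Adj (y : Fin n) (z : Fin n)
    exact fun h => hyz (Subtype.ext h)

theorem top_starFree {n m : ℕ} (hm : 2 ≤ m) : IsStarFree (⊤ : SimpleGraph (Fin n)) m := by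
  rintro ⟨v, Y, hY, -, hI⟩
  obtain ⟨x, hx, y, hy, hxy⟩ := Finset.one_lt_card.1 (by omega : 1 < Y.card)
  exact hI x hx y hy hxy

/-- Let `m ≥ 3`, let all sizes `s_l` be at least `1`, those with `l ≠ a, b` equal to `1`, and let
`max(s_a, s_b) ≥ 4m - 7`.  The least `r` such that every `r`-connected `K_{1,m}`-free graph is
`(s₁, …, s_k)`-linked is `s₁ + ⋯ + s_k - 1`. -/
theorem result (m k : ℕ) (s : Fin k → ℕ) (a b : Fin k) (hm : 3 ≤ m) (hab : a ≠ b)
    (hs : ∀ l, 1 ≤ s l) (hone : ∀ l, l ≠ a → l ≠ b → s l = 1)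
    (hlarge : 4 * m ≤ max (s a) (s b) + 7) :
    IsLeast {r : ℕ | Forces m s r} (∑ l, s l - 1) := by
  classical
  have hk : 2 ≤ k := by
    have h1 := Finset.card_le_card (Finset.subset_univ ({a, b} : Finset (Fin k)))
    rwa [Finset.card_pair hab, Finset.card_univ, Fintype.card_fin] at h1
  have hsum : ∑ l, s l = s a + s b + (k - 2) := by
    set R : Finset (Fin k) := (Finset.univ.erase a).erase b with hR
    have hRc : R.card = k - 2 := by
      rw [hR, Finset.card_erase_of_mem (Finset.mem_erase.2 ⟨hab.symm, Finset.mem_univ _⟩),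
        Finset.card_erase_of_mem (Finset.mem_univ _), Finset.card_univ, Fintype.card_fin]
      omega
    have h1 : ∑ l, s l = s a + ∑ l ∈ Finset.univ.erase a, s l :=
      (Finset.add_sum_erase _ _ (Finset.mem_univ a)).symm
    have h2 : ∑ l ∈ Finset.univ.erase a, s l = s b + ∑ l ∈ R, s l :=
      (Finset.add_sum_erase _ _ (Finset.mem_erase.2 ⟨hab.symm, Finset.mem_univ _⟩)).symm
    have h3 : ∑ l ∈ R, s l = k - 2 := by
      rw [Finset.sum_congr rfl (fun l hl => hone l
        (fun h => by rw [h, hR] at hl; simp at hl)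
        (fun h => by rw [h, hR] at hl; simp at hl))]
      simp [hRc]
    omega
  have ha := hs a
  have hb := hs b
  constructor
  · intro V _ G hsf hG
    have hr : ∑ l, s l - 1 = (s a + s b - 1) + (k - 2) := by omega
    rw [hr] at hG
    rcases le_total (s a) (s b) with hle | hle
    · rw [max_eq_right hle] at hlarge
      refine linked_of s hab hone rfl rfl (by omega) ?_ hsf hG
      intro W _ H hH hHsf S₁ S₂ hdis h1 h2
      exact main_aux hH hHsf hdis h1 h2 hm ha hlarge
    · rw [max_eq_left hle] at hlarge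
      refine linked_of s hab hone rfl rfl (by omega) ?_ hsf hG
      intro W _ H hH hHsf S₁ S₂ hdis h1 h2
      rw [add_comm] at hH
      exact lk_symm (main_aux hH hHsf hdis.symm h2 h1 hm hb hlarge)
  · intro r hr
    by_contra hlt
    push Not at hlt
    have h1 := hr (Fin (∑ l, s l - 1)) ⊤ (top_starFree (by omega)) (top_connected hlt)
    have h2 := h1.1
    rw [Fintype.card_fin] at h2
    omega

end Pool.Agent.Results.MP_dd17fe_co.StarFreeThreshold
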