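import Pool.Agent.Lib.H47G.Final

/-!
# `2 (i + j)`-connected graphs are `(i, j)`-linked

The proof: `Pool/Agent/Lib/H47G` (massed pairs in the style of Thomas and Wollan; Menger's
theorem; a partition argument in the closed neighbourhood of a vertex of small degree).
-/

open Classical

namespace Pool.Agent.Results.MP_dd17fe_co.UpperBound

open H47G

/-- `G` is `r`-connected: it has more than `r` vertices, and it stays connected after deleting any
set of fewer than `r` vertices. -/
def IsVertexConnected {V : Type} [Fintype V] (G : SimpleGraph V) (r : ℕ) : Prop :=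
  r < Fintype.card V ∧ ∀ X : Finset V, X.card < r → (G.induce {v : V | v ∉ X}).Connected

/-- `G` is `(s₁, …, s_k)`-linked: it has at least `s₁ + ⋯ + s_k` vertices, and for all pairwise
disjoint vertex sets `S₁, …, S_k` with `|S_i| = s_i` there are pairwise vertex-disjoint connected
subgraphs `F₁, …, F_k` with `S_i ⊆ V(F_i)` for every `i`. -/
def IsLinked {V : Type} [Fintype V] (G : SimpleGraph V) {k : ℕ} (s : Fin k → ℕ) : Prop :=
  ∑ i, s i ≤ Fintype.card V ∧
  ∀ S : Fin k → Finset V, (∀ i, (S i).card = s i) → (∀ i j, i ≠ j → Disjoint (S i) (S j)) →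
    ∃ F : Fin k → G.Subgraph,
      (∀ i, (F i).Connected) ∧ (∀ i, (S i : Set V) ⊆ (F i).verts) ∧
      ∀ i j, i ≠ j → Disjoint (F i).verts (F j).verts

section

variable {V : Type} [Fintype V] {G : SimpleGraph V}

/-- A nonempty set which is connected in the cut sense induces a connected subgraph. -/
theorem connected_of_conn {F : Finset V} (h : Conn G F) (hn : F.Nonempty) :
    ((⊤ : G.Subgraph).induce (F : Set V)).Connected := by
  rw [← SimpleGraph.connected_induce_iff]
  obtain ⟨x, hx⟩ := hn
  have key : ∀ y (hy : y ∈ F), (G.induce (F : Set V)).Reachable ⟨x, hx⟩ ⟨y, hy⟩ := by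
    let A : Finset V := F.filter fun y ↦ ∃ hy : y ∈ F,
      (G.induce (F : Set V)).Reachable ⟨x, hx⟩ ⟨y, hy⟩
    have hA : A = F := by
      by_contra hne
      obtain ⟨a, ha, b, hb, hbA, hab⟩ := h A (Finset.filter_subset _ _)
        ⟨x, Finset.mem_filter.2 ⟨hx, hx, SimpleGraph.Reachable.refl _⟩⟩ hne
      obtain ⟨-, ha', hr⟩ := Finset.mem_filter.1 ha
      refine hbA (Finset.mem_filter.2 ⟨hb, hb, hr.trans ?_⟩)
      exact SimpleGraph.Adj.reachable (by simpa using hab)
    intro y hy
    rw [← hA] at hy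
    exact (Finset.mem_filter.1 hy).2.2
  refine (SimpleGraph.connected_iff_exists_forall_reachable _).2 ⟨⟨x, hx⟩, fun y ↦ ?_⟩
  exact key y.1 y.2

/-- In a graph which is connected after deleting `Z`, a nonempty set `U` disjoint from `Z` which
is closed in the complement of `Z` is everything. -/
theorem closed_eq {Z U : Finset V} (h : (G.induce {v : V | v ∉ Z}).Connected)
    (hn : U.Nonempty) (hUZ : Disjoint U Z)
    (hcl : ∀ a ∈ U, ∀ b, b ∉ Z → b ∉ U → ¬ G.Adj a b) : ∀ b, b ∉ Z → b ∈ U := by
  intro b hbZ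
  by_contra hbU
  obtain ⟨a, ha⟩ := hn
  have haZ : a ∉ Z := Finset.disjoint_left.1 hUZ ha
  obtain ⟨p⟩ := h.preconnected ⟨a, haZ⟩ ⟨b, hbZ⟩
  obtain ⟨d, -, d1, d2⟩ := p.exists_boundary_dart {x | (x : V) ∈ U} ha hbU
  exact hcl _ d1 _ d.snd.2 d2 (by simpa using d.adj)

/-- The neighbourhoods are large. -/
theorem le_nb {r m : ℕ} (hG : IsVertexConnected G r) {T X : Finset V} (hT : T.card + m ≤ r)
    (hX : X.card = m) (hXT : Disjoint X T) {W : Finset V}
    (hW : W ⊆ (Finset.univ \ T) \ X) (hne : W.Nonempty) :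
    m ≤ (nb G (Finset.univ \ T) W).card := by
  by_contra hlt
  push Not at hlt
  set Z := nb G (Finset.univ \ T) W ∪ T with hZ
  have hZc : Z.card < r := by
    have : Z.card ≤ (nb G (Finset.univ \ T) W).card + T.card := Finset.card_union_le _ _
    omega
  have hWZ : Disjoint W Z := by
    rw [hZ, Finset.disjoint_union_right]
    refine ⟨nb_disjoint.symm, Finset.disjoint_left.2 fun x hx hxT ↦ ?_⟩
    exact (Finset.mem_sdiff.1 (Finset.mem_sdiff.1 (hW hx)).1).2 hxT
  have h1 := closed_eq (hG.2 Z hZc) hne hWZ (by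
    intro a ha b hbZ hbW hab
    rw [hZ, Finset.mem_union, not_or] at hbZ
    exact hbZ.1 (mem_nb.2 ⟨by simp [hbZ.2], hbW, a, ha, hab⟩))
  -- all vertices of `X` are neighbours of `W`
  have h2 : X ⊆ nb G (Finset.univ \ T) W := by
    intro x hx
    by_contra hxn
    have hxT : x ∉ T := Finset.disjoint_left.1 hXT hx
    have := h1 x (by rw [hZ, Finset.mem_union, not_or]; exact ⟨hxn, hxT⟩)
    exact (Finset.mem_sdiff.1 (hW this)).2 hx
  have := Finset.card_le_card h2
  omega

/-- The conclusion from massed pairs. -/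
theorem linked_of_massed {k : ℕ} {s : Fin k → ℕ} {a b : Fin k} (hab : a ≠ b)
    (h1 : ∀ l, 1 ≤ s l) (hs : ∀ l, l ≠ a → l ≠ b → s l = 1)
    (hcard : ∑ l, s l ≤ Fintype.card V)
    (hm : ∀ T X : Finset V, T.card = k - 2 → X.card = s a + s b → Disjoint X T →
      Massed (s a + s b) G X ((Finset.univ \ T) \ X)) : IsLinked G s := by
  refine ⟨hcard, fun S hS hd ↦ ?_⟩
  set T : Finset V := ((Finset.univ.erase a).erase b).biUnion S with hT
  set X : Finset V := S a ∪ S b with hX
  have hTc : T.card = k - 2 := by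
    rw [hT, Finset.card_biUnion fun x _ y _ hxy ↦ hd x y hxy,
      Finset.sum_congr rfl (g := fun _ ↦ 1) (fun l hl ↦ ?_)]
    · rw [Finset.sum_const, smul_eq_mul, mul_one, Finset.card_erase_of_mem
        (Finset.mem_erase.2 ⟨hab.symm, Finset.mem_univ b⟩),
        Finset.card_erase_of_mem (Finset.mem_univ a), Finset.card_univ, Fintype.card_fin]
      omega
    · rw [Finset.mem_erase, Finset.mem_erase] at hl
      rw [hS l, hs l hl.2.1 hl.1]
  have hXc : X.card = s a + s b := by
    rw [hX, Finset.card_union_of_disjoint (hd a b hab), hS a, hS b]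
  have hXT : Disjoint X T := by
    rw [hT, Finset.disjoint_biUnion_right]
    intro l hl
    rw [Finset.mem_erase, Finset.mem_erase] at hl
    rw [hX, Finset.disjoint_union_left]
    exact ⟨hd a l hl.2.1.symm, hd b l hl.1.symm⟩
  have hXS : X ⊆ Finset.univ \ T := fun x hx ↦
    Finset.mem_sdiff.2 ⟨Finset.mem_univ x, Finset.disjoint_left.1 hXT hx⟩
  have hk := massed_knit (hm T X hTc hXc hXT)
  rw [Finset.union_sdiff_of_subset hXS] at hk
  obtain ⟨F₁, F₂, f1, f2, f3, f4, f5, f6, f7⟩ := hk (S a) Finset.subset_union_left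
  have f5' : S b ⊆ F₂ := fun x hx ↦ f5 (Finset.mem_sdiff.2
    ⟨Finset.mem_union_right _ hx, fun h ↦ Finset.disjoint_left.1 (hd a b hab) h hx⟩)
  let FF : Fin k → Finset V := fun l ↦ if l = a then F₁ else if l = b then F₂ else S l
  have FFa : FF a = F₁ := by simp [FF]
  have FFb : FF b = F₂ := by simp [FF, hab.symm]
  have FFl : ∀ l, l ≠ a → l ≠ b → FF l = S l := fun l h1 h2 ↦ by simp [FF, h1, h2]
  have hsub : ∀ l, S l ⊆ FF l := by
    intro l
    by_cases hla : l = a
    · rw [hla, FFa]
      exact f4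
    by_cases hlb : l = b
    · rw [hlb, FFb]
      exact f5'
    · rw [FFl l hla hlb]
  have hST : ∀ l, l ≠ a → l ≠ b → S l ⊆ T := by
    intro l hla hlb
    exact Finset.subset_biUnion_of_mem S
      (Finset.mem_erase.2 ⟨hlb, Finset.mem_erase.2 ⟨hla, Finset.mem_univ l⟩⟩)
  have hcon : ∀ l, Conn G (FF l) := by
    intro l
    by_cases hla : l = a
    · rw [hla, FFa]
      exact f6
    by_cases hlb : l = b
    · rw [hlb, FFb]
      exact f7
    · rw [FFl l hla hlb]
      obtain ⟨x, hx⟩ := Finset.card_eq_one.1 ((hS l).trans (hs l hla hlb))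
      rw [hx]
      exact conn_singleton x
  have dT : ∀ F : Finset V, F ⊆ Finset.univ \ T → ∀ l, l ≠ a → l ≠ b → Disjoint F (S l) := by
    intro F hF l hla hlb
    rw [Finset.disjoint_left]
    intro x hx hxS
    exact (Finset.mem_sdiff.1 (hF hx)).2 (hST l hla hlb hxS)
  have hdis : ∀ l l', l ≠ l' → Disjoint (FF l) (FF l') := by
    intro l l' hne
    by_cases hla : l = a
    · subst hla
      rw [FFa]
      by_cases hlb' : l' = b
      · rw [hlb', FFb]
        exact f3
      · rw [FFl l' hne.symm hlb']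
        exact dT _ f1 l' hne.symm hlb'
    by_cases hlb : l = b
    · subst hlb
      rw [FFb]
      by_cases hla' : l' = a
      · rw [hla', FFa]
        exact f3.symm
      · rw [FFl l' hla' hne.symm]
        exact dT _ f2 l' hla' hne.symm
    rw [FFl l hla hlb]
    by_cases hla' : l' = a
    · rw [hla', FFa]
      exact (dT _ f1 l hla hlb).symm
    by_cases hlb' : l' = b
    · rw [hlb', FFb]
      exact (dT _ f2 l hla hlb).symm
    · rw [FFl l' hla' hlb']
      exact hd l l' hne
  refine ⟨fun l ↦ (⊤ : G.Subgraph).induce (FF l : Set V), fun l ↦ ?_, fun l ↦ ?_,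
    fun l l' hne ↦ ?_⟩
  · refine connected_of_conn (hcon l) ?_
    have : (S l).Nonempty := Finset.card_pos.1 (by rw [hS l]; exact h1 l)
    exact this.mono (hsub l)
  · rw [SimpleGraph.Subgraph.induce_verts]
    exact_mod_cast hsub l
  · rw [SimpleGraph.Subgraph.induce_verts, SimpleGraph.Subgraph.induce_verts]
    exact_mod_cast hdis l l' hne

theorem sum_s {k : ℕ} {s : Fin k → ℕ} {a b : Fin k} (hab : a ≠ b)
    (hs : ∀ l, l ≠ a → l ≠ b → s l = 1) : ∑ l, s l = s a + s b + (k - 2) := by
  rw [← Finset.add_sum_erase _ s (Finset.mem_univ a),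
    ← Finset.add_sum_erase _ s (Finset.mem_erase.2 ⟨hab.symm, Finset.mem_univ b⟩),
    Finset.sum_congr rfl (g := fun _ ↦ 1) (fun l hl ↦ ?_)]
  · rw [Finset.sum_const, smul_eq_mul, mul_one, Finset.card_erase_of_mem
      (Finset.mem_erase.2 ⟨hab.symm, Finset.mem_univ b⟩),
      Finset.card_erase_of_mem (Finset.mem_univ a), Finset.card_univ, Fintype.card_fin]
    omega
  · rw [Finset.mem_erase, Finset.mem_erase] at hl
    exact hs l hl.2.1 hl.1

/-- The minimum degree of an `r`-connected graph is at least `r`. -/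
theorem le_degree {r : ℕ} (hG : IsVertexConnected G r) (v : V) :
    r ≤ (nb G Finset.univ {v}).card := by
  by_contra hlt
  push Not at hlt
  set Z := nb G Finset.univ {v} with hZ
  have h1 := closed_eq (hG.2 Z hlt) (U := {v}) (Finset.singleton_nonempty v)
    nb_disjoint.symm (by
      intro a ha b hbZ hbW hab
      exact hbZ (mem_nb.2 ⟨Finset.mem_univ b, hbW, a, ha, hab⟩))
  have h2 : (Finset.univ : Finset V) ⊆ insert v Z := by
    intro x _
    by_cases hx : x ∈ Z
    · exact Finset.mem_insert_of_mem hx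
    · exact Finset.mem_insert.2 (Or.inl (Finset.mem_singleton.1 (h1 x hx)))
  have h3 := (Finset.card_le_card h2).trans (Finset.card_insert_le _ _)
  rw [Finset.card_univ] at h3
  have := hG.1
  omega

theorem massed_of_connected {m t : ℕ} (hm : 0 < m) (hG : IsVertexConnected G (2 * m + t))
    {T X : Finset V} (hT : T.card = t) (hX : X.card = m) (hXT : Disjoint X T) :
    Massed m G X ((Finset.univ \ T) \ X) := by
  set S := Finset.univ \ T with hS
  have hXS : X ⊆ S := fun x hx ↦
    Finset.mem_sdiff.2 ⟨Finset.mem_univ x, Finset.disjoint_left.1 hXT hx⟩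
  have hU : X ∪ (S \ X) = S := Finset.union_sdiff_of_subset hXS
  refine ⟨Finset.disjoint_sdiff, hX.le, ?_, fun W hW hlt ↦ ?_⟩
  · rw [hU]
    set H := S \ X with hH
    -- `H` is not empty
    have hVc := hG.1
    have hScard : S.card + t = Fintype.card V := by
      rw [hS, ← hT, Finset.card_sdiff_add_card_eq_card (Finset.subset_univ T), Finset.card_univ]
    have hHcard : H.card + m = S.card := by
      rw [hH, ← hX, Finset.card_sdiff_add_card_eq_card hXS]
    have hHne : H.Nonempty := Finset.card_pos.1 (by omega)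
    -- the pairs with first coordinate in `H`, and one more pair
    set A := H.sigma fun v ↦ nb G S {v} with hA
    have hA1 : H.card * (2 * m) ≤ A.card := by
      rw [hA, Finset.card_sigma, ← smul_eq_mul]
      refine Finset.card_nsmul_le_sum H _ _ fun v hv ↦ ?_
      have h1 := le_degree hG v
      have h2 : nb G Finset.univ {v} ⊆ nb G S {v} ∪ T := by
        intro y hy
        obtain ⟨-, y2, w, hw, hwy⟩ := mem_nb.1 hy
        by_cases hyT : y ∈ T
        · exact Finset.mem_union_right _ hyT
        · exact Finset.mem_union_left _ (mem_nb.2 ⟨by simp [hS, hyT], y2, w, hw, hwy⟩)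
      have h3 := (Finset.card_le_card h2).trans (Finset.card_union_le _ _)
      omega
    -- an edge between `X` and `H`
    obtain ⟨x, hx, h, hh, hxh⟩ : ∃ x ∈ X, ∃ h ∈ H, G.Adj x h := by
      by_contra hno
      push Not at hno
      have h1 := closed_eq (hG.2 T (by omega)) (U := H) hHne (by
        rw [hH, hS]
        exact Finset.sdiff_disjoint.mono_left Finset.sdiff_subset) (by
        intro a ha b hbT hbH hab
        have hbS : b ∈ S := by simp [hS, hbT]
        have hbX : b ∈ X := by
          by_contra hbX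
          exact hbH (Finset.mem_sdiff.2 ⟨hbS, hbX⟩)
        exact hno b hbX a ha hab.symm)
      obtain ⟨x, hx⟩ : X.Nonempty := Finset.card_pos.1 (by omega)
      exact (Finset.mem_sdiff.1 (h1 x (Finset.disjoint_left.1 hXT hx))).2 hx
    have hinj : Function.Injective (fun q : (_ : V) × V ↦ (q.1, q.2)) := by
      rintro ⟨a, b⟩ ⟨a', b'⟩ heq
      simp only [Prod.mk.injEq] at heq
      obtain ⟨rfl, rfl⟩ := heq
      rfl
    have hnot : (x, h) ∉ A.image (fun q : (_ : V) × V ↦ (q.1, q.2)) := by
      intro hmem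
      obtain ⟨⟨a, b⟩, hab, heq⟩ := Finset.mem_image.1 hmem
      simp only [Prod.mk.injEq] at heq
      obtain ⟨rfl, rfl⟩ := heq
      exact (Finset.mem_sdiff.1 (Finset.mem_sigma.1 hab).1).2 hx
    have hsub : insert (x, h) (A.image (fun q : (_ : V) × V ↦ (q.1, q.2))) ⊆ P G S H := by
      intro q hq
      rcases Finset.mem_insert.1 hq with rfl | hq
      · exact mem_P.2 ⟨hXS hx, (Finset.mem_sdiff.1 hh).1, hxh, Or.inr hh⟩
      · obtain ⟨⟨a, b⟩, hab, rfl⟩ := Finset.mem_image.1 hq
        obtain ⟨h1, h2⟩ := Finset.mem_sigma.1 hab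
        obtain ⟨h3, h4, w, hw, hwy⟩ := mem_nb.1 h2
        rw [Finset.mem_singleton] at hw
        rw [hw] at hwy
        exact mem_P.2 ⟨(Finset.mem_sdiff.1 h1).1, h3, hwy, Or.inl h1⟩
    have h5 := Finset.card_le_card hsub
    rw [Finset.card_insert_of_notMem hnot, Finset.card_image_of_injective _ hinj] at h5
    have h6 : H.card * (2 * m) = 2 * m * H.card := mul_comm _ _
    omega
  · rw [hU] at hlt ⊢
    rcases W.eq_empty_or_nonempty with rfl | hne
    · have : P G S ∅ = ∅ := by
        ext q
        simp [mem_P]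
      simp [this]
    · have : m ≤ (nb G S W).card := le_nb hG (by omega) hX hXT hW hne
      omega

theorem card_pairs : (pairs G Finset.univ).card = 2 * G.edgeSet.ncard := by
  have h1 : (pairs G Finset.univ).card = Fintype.card G.Dart := by
    rw [← Finset.card_univ]
    refine Finset.card_bij' (fun q hq ↦ ⟨q, (mem_pairs.1 hq).2⟩) (fun d _ ↦ d.toProd) ?_ ?_ ?_ ?_
    · intro q hq
      exact Finset.mem_univ _
    · intro d _
      exact mem_pairs.2 ⟨⟨Finset.mem_univ _, Finset.mem_univ _⟩, d.adj⟩
    · intro q hq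
      rfl
    · intro d _
      rfl
  rw [h1, SimpleGraph.dart_card_eq_twice_card_edges, ← SimpleGraph.coe_edgeFinset,
    Set.ncard_coe_finset]

theorem massed_of_edges {m : ℕ} (hG : IsVertexConnected G m)
    (he : m * Fintype.card V < G.edgeSet.ncard + (m + 1).choose 2)
    {X : Finset V} (hX : X.card = m) :
    Massed m G X (((Finset.univ : Finset V) \ ∅) \ X) := by
  set S := (Finset.univ : Finset V) \ ∅ with hS
  have hS' : S = Finset.univ := by simp [hS]
  have hXS : X ⊆ S := by simp [hS]
  have hU : X ∪ (S \ X) = S := Finset.union_sdiff_of_subset hXS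
  refine ⟨Finset.disjoint_sdiff, hX.le, ?_, fun W hW hlt ↦ ?_⟩
  · rw [hU]
    set H := S \ X with hH
    have hHcard : H.card + m = Fintype.card V := by
      rw [hH, ← hX, Finset.card_sdiff_add_card_eq_card hXS, hS', Finset.card_univ]
    have h1 : pairs G Finset.univ ⊆ P G S H ∪ X.offDiag := by
      rintro ⟨a, b⟩ hab
      obtain ⟨-, hadj⟩ := mem_pairs.1 hab
      simp only at hadj
      by_cases ha : a ∈ H
      · exact Finset.mem_union_left _ (mem_P.2 ⟨by simp [hS'], by simp [hS'], hadj, Or.inl ha⟩)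
      by_cases hb : b ∈ H
      · exact Finset.mem_union_left _ (mem_P.2 ⟨by simp [hS'], by simp [hS'], hadj, Or.inr hb⟩)
      · have ha' : a ∈ X := by
          by_contra h
          exact ha (Finset.mem_sdiff.2 ⟨by simp [hS'], h⟩)
        have hb' : b ∈ X := by
          by_contra h
          exact hb (Finset.mem_sdiff.2 ⟨by simp [hS'], h⟩)
        exact Finset.mem_union_right _ (Finset.mem_offDiag.2 ⟨ha', hb', hadj.ne⟩)
    have h2 := (Finset.card_le_card h1).trans (Finset.card_union_le _ _)
    rw [card_pairs, Finset.offDiag_card, hX] at h2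
    have h3 : 2 * (m + 1).choose 2 = (m + 1) * m := by
      rw [Nat.choose_two_right, Nat.add_sub_cancel]
      exact Nat.mul_div_cancel' ((Nat.even_mul_succ_self m).two_dvd.trans (by rw [mul_comm]))
    have h4 : m * m - m + m = m * m := Nat.sub_add_cancel (Nat.le_mul_self m)
    have h5 : 2 * m * H.card + 2 * (m * m) = 2 * (m * Fintype.card V) := by
      rw [← hHcard]
      ring
    have h6 : (m + 1) * m = m * m + m := by ring
    omega
  · rw [hU] at hlt ⊢
    rcases W.eq_empty_or_nonempty with rfl | hne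
    · have : P G S ∅ = ∅ := by
        ext q
        simp [mem_P]
      simp [this]
    · have : m ≤ (nb G S W).card :=
        le_nb hG (T := ∅) (by simp) hX (Finset.disjoint_empty_right X) hW hne
      omega

end

/-- **Upper bounds.**

1. If `s_a, s_b ≥ 1` are arbitrary and the other `k - 2` sizes are `1`, then every
`(2 (s_a + s_b) + k - 2)`-connected graph is `(s₁, …, s_k)`-linked.  In particular (`k = 2`)
every `2 (i + j)`-connected graph is `(i, j)`-linked.
2. Every `(i + j)`-connected graph with more than `(i + j) |V| - C(i + j + 1, 2)` edges is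
`(i, j)`-linked. -/
theorem result :
    (∀ (k : ℕ) (s : Fin k → ℕ) (a b : Fin k), a ≠ b → (∀ l, 1 ≤ s l) →
      (∀ l, l ≠ a → l ≠ b → s l = 1) → ∀ (V : Type) [Fintype V] (G : SimpleGraph V),
        IsVertexConnected G (2 * (s a + s b) + (k - 2)) → IsLinked G s) ∧
    (∀ (i j : ℕ), 1 ≤ i → 1 ≤ j → ∀ (V : Type) [Fintype V] (G : SimpleGraph V),
        IsVertexConnected G (i + j) →
        (i + j) * Fintype.card V < G.edgeSet.ncard + (i + j + 1).choose 2 →
        IsLinked G ![i, j]) := by
  constructor
  · intro k s a b hab h1 hs V _ G hG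
    refine linked_of_massed hab h1 hs ?_ fun T X hT hX hXT ↦
      massed_of_connected (by have := h1 a; omega) hG hT hX hXT
    rw [sum_s hab hs]
    have := hG.1
    omega
  · intro i j hi hj V _ G hG he
    have h01 : (0 : Fin 2) ≠ 1 := by decide
    refine linked_of_massed (a := 0) (b := 1) h01 ?_ ?_ ?_ ?_
    · intro l
      fin_cases l
      · exact hi
      · exact hj
    · intro l h0 h1
      fin_cases l
      · exact absurd rfl h0
      · exact absurd rfl h1
    · rw [Fin.sum_univ_two]
      exact hG.1.le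
    · intro T X hT hX hXT
      have hT' : T = ∅ := Finset.card_eq_zero.1 (by simpa using hT)
      subst hT'
      exact massed_of_edges hG he hX

end Pool.Agent.Results.MP_dd17fe_co.UpperBound
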